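import Mathlib

/-! Means on nonnegative functions and the exchange of two means on an inner product. -/

set_option autoImplicit false

open scoped ENNReal Topology InnerProductSpace
open Filter MeasureTheory

namespace Pool.Agent.P.MP_2f0599_an.TQ

variable {S T : Type}

/-- Additive functionals that fix the constants. -/
structure IsMean (m : (S → ℝ≥0∞) → ℝ≥0∞) : Prop where
  add : ∀ f g, m (fun s => f s + g s) = m f + m g
  const : ∀ c, m (fun _ => c) = c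

theorem IsMean.mono {m : (S → ℝ≥0∞) → ℝ≥0∞} (hm : IsMean m) {f g : S → ℝ≥0∞}
    (h : ∀ s, f s ≤ g s) : m f ≤ m g := by
  have : g = fun s => f s + (g s - f s) := funext fun s => (add_tsub_cancel_of_le (h s)).symm
  rw [this, hm.add]
  exact le_self_add

theorem IsMean.le_const {m : (S → ℝ≥0∞) → ℝ≥0∞} (hm : IsMean m) {f : S → ℝ≥0∞} {c : ℝ≥0∞}
    (h : ∀ s, f s ≤ c) : m f ≤ c := (hm.mono h).trans (hm.const c).le

theorem IsMean.le_add {m : (S → ℝ≥0∞) → ℝ≥0∞} (hm : IsMean m) {f g : S → ℝ≥0∞} {c : ℝ≥0∞}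
    (h : ∀ s, f s ≤ g s + c) : m f ≤ m g + c := by
  have := hm.mono h
  rwa [hm.add, hm.const] at this

theorem isCompact_means : IsCompact {m : (S → ℝ≥0∞) → ℝ≥0∞ | IsMean m} := by
  have : {m : (S → ℝ≥0∞) → ℝ≥0∞ | IsMean m} =
      (⋂ f, ⋂ g, {m | m (fun s => f s + g s) = m f + m g}) ∩ ⋂ c, {m | m (fun _ => c) = c} := by
    ext m
    simp only [Set.mem_ofPred_eq, Set.mem_inter_iff, Set.mem_iInter]
    exact ⟨fun h => ⟨h.1, h.2⟩, fun h => ⟨h.1, h.2⟩⟩
  rw [this]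
  refine IsClosed.isCompact (IsClosed.inter ?_ ?_)
  · exact isClosed_iInter fun f => isClosed_iInter fun g => isClosed_eq (by fun_prop) (by fun_prop)
  · exact isClosed_iInter fun c => isClosed_eq (by fun_prop) (by fun_prop)

theorem IsMean.convex {m m' : (S → ℝ≥0∞) → ℝ≥0∞} (hm : IsMean m) (hm' : IsMean m') {a b : ℝ≥0∞}
    (h : a + b = 1) : IsMean fun f => a * m f + b * m' f :=
  ⟨fun f g => by rw [hm.add, hm'.add]; ring, fun c => by rw [hm.const, hm'.const, ← add_mul, h, one_mul]⟩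

theorem IsMean.comp {m : (S → ℝ≥0∞) → ℝ≥0∞} (hm : IsMean m) (φ : S → T) :
    IsMean fun f : T → ℝ≥0∞ => m fun s => f (φ s) :=
  ⟨fun _ _ => hm.add _ _, fun c => hm.const c⟩

theorem isMean_eval (s : S) : IsMean fun f : S → ℝ≥0∞ => f s := ⟨fun _ _ => rfl, fun _ => rfl⟩

/-- The limit along an ultrafilter. -/
noncomputable def um (U : Ultrafilter S) (f : S → ℝ≥0∞) : ℝ≥0∞ := (U.map f).lim

theorem tendsto_um (U : Ultrafilter S) (f : S → ℝ≥0∞) : Tendsto f U (𝓝 (um U f)) :=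
  (U.map f).le_nhds_lim

theorem um_eq {U : Ultrafilter S} {f : S → ℝ≥0∞} {a : ℝ≥0∞} (h : Tendsto f U (𝓝 a)) :
    um U f = a := tendsto_nhds_unique (tendsto_um U f) h

theorem isMean_um (U : Ultrafilter S) : IsMean (um U) :=
  ⟨fun f g => um_eq ((tendsto_um U f).add (tendsto_um U g)), fun _ => um_eq tendsto_const_nhds⟩

/-- The real functional of a mean. -/
noncomputable def rm (m : (S → ℝ≥0∞) → ℝ≥0∞) (f : S → ℝ) : ℝ :=
  (m fun s => ENNReal.ofReal (f s)).toReal - (m fun s => ENNReal.ofReal (-f s)).toReal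

theorem rm_toReal {m : (S → ℝ≥0∞) → ℝ≥0∞} (hm : IsMean m) {u : S → ℝ≥0∞} (hu : ∀ s, u s ≤ 1) :
    rm m (fun s => (u s).toReal) = (m u).toReal := by
  have h1 : (fun s => ENNReal.ofReal (u s).toReal) = u :=
    funext fun s => ENNReal.ofReal_toReal (ne_top_of_le_ne_top ENNReal.one_ne_top (hu s))
  have h2 : (fun s => ENNReal.ofReal (-(u s).toReal)) = fun _ => 0 :=
    funext fun s => ENNReal.ofReal_of_nonpos (neg_nonpos.2 ENNReal.toReal_nonneg)
  rw [rm, h1, h2, hm.const, ENNReal.toReal_zero, sub_zero]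

theorem ofReal_id (a b : ℝ) : ENNReal.ofReal (a + b) + ENNReal.ofReal (-a) + ENNReal.ofReal (-b) =
    ENNReal.ofReal (-(a + b)) + ENNReal.ofReal a + ENNReal.ofReal b := by
  simp only [ENNReal.ofReal, ← ENNReal.coe_add, ENNReal.coe_inj]
  ext
  simp only [NNReal.coe_add, Real.coe_toNNReal', max_def]
  split_ifs <;> linarith

theorem riesz {H : Type} [NormedAddCommGroup H] [InnerProductSpace ℝ H] [CompleteSpace H]
    {m : (S → ℝ≥0∞) → ℝ≥0∞} (hm : IsMean m) (b : S → H) (hb : ∀ s, ‖b s‖ ≤ 1) :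
    ∃ c : H, ∀ a, rm m (fun s => ⟪b s, a⟫_ℝ) = ⟪c, a⟫_ℝ := by
  have h0 : ∀ a s, |⟪b s, a⟫_ℝ| ≤ ‖a‖ := fun a s =>
    (abs_real_inner_le_norm _ _).trans (mul_le_of_le_one_left (norm_nonneg _) (hb s))
  have h1 : ∀ a, m (fun s => ENNReal.ofReal ⟪b s, a⟫_ℝ) ≤ ENNReal.ofReal ‖a‖ := fun a =>
    hm.le_const fun s => ENNReal.ofReal_le_ofReal (le_of_abs_le (h0 a s))
  have h2 : ∀ a, m (fun s => ENNReal.ofReal (-⟪b s, a⟫_ℝ)) ≤ ENNReal.ofReal ‖a‖ := fun a =>
    hm.le_const fun s => ENNReal.ofReal_le_ofReal (neg_le.1 (neg_le_of_abs_le (h0 a s)))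
  have h3 := fun a => ne_top_of_le_ne_top ENNReal.ofReal_ne_top (h1 a)
  have h4 := fun a => ne_top_of_le_ne_top ENNReal.ofReal_ne_top (h2 a)
  let F : H →+ ℝ := AddMonoidHom.mk' (fun a => rm m fun s => ⟪b s, a⟫_ℝ) fun a a' => by
    have h := congrArg (fun f => (m f).toReal)
      (funext fun s => ofReal_id ⟪b s, a⟫_ℝ ⟪b s, a'⟫_ℝ)
    simp only [hm.add, ← inner_add_right] at h
    rw [ENNReal.toReal_add (ENNReal.add_ne_top.2 ⟨h3 _, h4 _⟩) (h4 _),
      ENNReal.toReal_add (h3 _) (h4 _), ENNReal.toReal_add (ENNReal.add_ne_top.2 ⟨h4 _, h3 _⟩) (h3 _),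
      ENNReal.toReal_add (h4 _) (h3 _)] at h
    simp only [rm]
    linarith
  have hF : Continuous F := AddMonoidHomClass.continuous_of_bound F 1 fun a => by
    have h5 := ENNReal.toReal_le_of_le_ofReal (norm_nonneg a) (h1 a)
    have h6 := ENNReal.toReal_le_of_le_ofReal (norm_nonneg a) (h2 a)
    rw [one_mul, Real.norm_eq_abs, abs_le]
    simp only [F, AddMonoidHom.mk'_apply, rm]
    constructor <;> linarith [ENNReal.toReal_nonneg (a := m fun s => ENNReal.ofReal ⟪b s, a⟫_ℝ),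
      ENNReal.toReal_nonneg (a := m fun s => ENNReal.ofReal (-⟪b s, a⟫_ℝ))]
  exact ⟨(InnerProductSpace.toDual ℝ H).symm (F.toRealLinearMap hF), fun a =>
    (InnerProductSpace.toDual_symm_apply (y := F.toRealLinearMap hF)).symm⟩

theorem exists_L2 {Ω : Type} [MeasurableSpace Ω] (η : Measure Ω) [IsProbabilityMeasure η]
    {a : Ω → ℝ≥0∞} (ha : Measurable a) (h1 : ∀ y, a y ≤ 1) :
    ∃ A : Lp ℝ 2 η, ‖A‖ ≤ 1 ∧ A =ᵐ[η] fun y => (a y).toReal := by
  have h2 : ∀ y, ‖(a y).toReal‖ ≤ 1 := fun y => by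
    rw [Real.norm_of_nonneg ENNReal.toReal_nonneg]
    exact ENNReal.toReal_le_of_le_ofReal zero_le_one (by simpa using h1 y)
  have h : MemLp (fun y => (a y).toReal) 2 η :=
    MemLp.of_bound ha.ennreal_toReal.aestronglyMeasurable 1 (.of_forall h2)
  refine ⟨h.toLp _, ?_, h.coeFn_toLp⟩
  have := Lp.norm_le_of_ae_bound (f := h.toLp _) zero_le_one
    (h.coeFn_toLp.mono fun y hy => by rw [hy]; exact h2 y)
  simpa [measureUnivNNReal] using this

theorem mean_swap {Ω : Type} [MeasurableSpace Ω] (η : Measure Ω) [IsProbabilityMeasure η]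
    {m : (S → ℝ≥0∞) → ℝ≥0∞} (hm : IsMean m) {n : (T → ℝ≥0∞) → ℝ≥0∞} (hn : IsMean n)
    {a : S → Ω → ℝ≥0∞} (ha : ∀ s, Measurable (a s)) (ha1 : ∀ s y, a s y ≤ 1)
    {b : T → Ω → ℝ≥0∞} (hb : ∀ t, Measurable (b t)) (hb1 : ∀ t y, b t y ≤ 1) :
    m (fun s => n fun t => ∫⁻ y, a s y * b t y ∂η) =
      n fun t => m fun s => ∫⁻ y, a s y * b t y ∂η := by
  choose A hA hA' using fun s => exists_L2 η (ha s) (ha1 s)
  choose B hB hB' using fun t => exists_L2 η (hb t) (hb1 t)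
  have h1 : ∀ s t, ∫⁻ y, a s y * b t y ∂η ≤ 1 := fun s t =>
    (lintegral_mono fun y => mul_le_one' (ha1 s y) (hb1 t y)).trans (by simp)
  have h2 : ∀ s t, (∫⁻ y, a s y * b t y ∂η).toReal = ⟪A s, B t⟫_ℝ := fun s t => by
    rw [L2.inner_def, ← integral_toReal (f := fun y => a s y * b t y)
      ((ha s).mul (hb t)).aemeasurable (.of_forall fun y =>
      (mul_le_one' (ha1 s y) (hb1 t y)).trans_lt ENNReal.one_lt_top)]
    refine integral_congr_ae ?_
    filter_upwards [hA' s, hB' t] with y h h'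
    simp [h, h', mul_comm]
  obtain ⟨A0, hA0⟩ := riesz hm A hA
  obtain ⟨B0, hB0⟩ := riesz hn B hB
  have h3 : ∀ s, n (fun t => ∫⁻ y, a s y * b t y ∂η) ≤ 1 := fun s => hn.le_const (h1 s)
  have h4 : ∀ t, m (fun s => ∫⁻ y, a s y * b t y ∂η) ≤ 1 := fun t => hm.le_const (h1 · t)
  rw [← ENNReal.toReal_eq_toReal_iff' (ne_top_of_le_ne_top ENNReal.one_ne_top (hm.le_const h3))
    (ne_top_of_le_ne_top ENNReal.one_ne_top (hn.le_const h4)), ← rm_toReal hm h3, ← rm_toReal hn h4]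
  have h5 : ∀ s, (n fun t => ∫⁻ y, a s y * b t y ∂η).toReal = ⟪A s, B0⟫_ℝ := fun s => by
    rw [← rm_toReal hn (h1 s), real_inner_comm, ← hB0]
    simp only [h2, real_inner_comm]
  have h6 : ∀ t, (m fun s => ∫⁻ y, a s y * b t y ∂η).toReal = ⟪B t, A0⟫_ℝ := fun t => by
    rw [← rm_toReal hm (h1 · t), real_inner_comm, ← hA0]
    simp only [h2]
  simp only [h5, h6]
  rw [hA0, hB0, real_inner_comm]

end Pool.Agent.P.MP_2f0599_an.TQ
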