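import Pool.Agent.P.MP_2f0599_an.TQ.Tree
import Pool.Agent.P.MP_2f0599_an.TQ.Mean

/-! The exchange of a limit and a mean for the Laplace functional of the densities. -/

set_option autoImplicit false

open scoped ENNReal Topology
open Filter MeasureTheory

namespace Pool.Agent.P.MP_2f0599_an.TQ

/-- The exponential of `-u`. -/
noncomputable def en (u : ℝ≥0∞) : ℝ≥0∞ := EReal.exp (-(u : EReal))

theorem en_add (u v : ℝ≥0∞) : en (u + v) = en u * en v := by
  rw [en, EReal.coe_ennreal_add, EReal.neg_add (.inl (EReal.coe_ennreal_ne_bot _))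
    (.inr (EReal.coe_ennreal_ne_bot _)), sub_eq_add_neg, EReal.exp_add]
  rfl

theorem en_zero : en 0 = 1 := by simp [en]

theorem en_anti {u v : ℝ≥0∞} (h : u ≤ v) : en v ≤ en u :=
  EReal.exp_monotone (EReal.neg_le_neg_iff.2 (EReal.coe_ennreal_le_coe_ennreal_iff.2 h))

theorem en_le_one (u : ℝ≥0∞) : en u ≤ 1 := (en_anti (zero_le)).trans en_zero.le

theorem en_one : en 1 < 1 :=
  (EReal.exp_strictMono (EReal.neg_lt_neg_iff.2
    (EReal.coe_ennreal_lt_coe_ennreal_iff.2 zero_lt_one))).trans_eq en_zero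

theorem one_le_en (u : ℝ≥0∞) : 1 ≤ en u + u := by
  induction u with
  | top => simp
  | coe r =>
    have h : en r = ENNReal.ofReal (Real.exp (-r)) := rfl
    rw [h, ← ENNReal.ofReal_coe_nnreal, ← ENNReal.ofReal_add (Real.exp_pos _).le r.coe_nonneg,
      ENNReal.one_le_ofReal]
    linarith [Real.add_one_le_exp (-(r : ℝ))]

theorem measurable_en : Measurable en :=
  EReal.measurable_exp.comp measurable_coe_ennreal_ereal.neg

theorem en_le {u v a : ℝ≥0∞} (h : u ≤ v + a) : en v ≤ en u + min 1 a := by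
  have h1 : 1 ≤ en a + min 1 a := by
    rcases le_total 1 a with h | h
    · rw [min_eq_left h]; exact le_add_self
    · rw [min_eq_right h]; exact one_le_en a
  calc en v ≤ en v * (en a + min 1 a) := le_mul_of_one_le_right' h1
    _ = en (v + a) + en v * min 1 a := by rw [mul_add, en_add]
    _ ≤ _ := add_le_add (en_anti h) (mul_le_of_le_one_left' (en_le_one v))

/-- The Laplace functional. -/
noncomputable def Phi (u : Om → ℝ≥0∞) : ℝ≥0∞ := ∫⁻ y, en (u y) ∂eta

/-- The size in probability. -/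
noncomputable def lam (a : Om → ℝ≥0∞) : ℝ≥0∞ := ∫⁻ y, min 1 (a y) ∂eta

/-- A weighted sum of zooms. -/
noncomputable def G (r : List Bool → ℝ≥0∞) (h : Om → ℝ≥0∞) (y : Om) : ℝ≥0∞ :=
  ∑' w, r w * (cw w * h (pre w y))

theorem Phi_le {u v a : Om → ℝ≥0∞} (hu : Measurable u) (h : ∀ y, u y ≤ v y + a y) :
    Phi v ≤ Phi u + lam a :=
  (lintegral_mono fun y => en_le (h y)).trans (lintegral_add_left (measurable_en.comp hu) _).le

theorem Phi_le_one (u : Om → ℝ≥0∞) : Phi u ≤ 1 :=
  (lintegral_mono fun y => en_le_one (u y)).trans (by simp)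

theorem lam_le (a : Om → ℝ≥0∞) : lam a ≤ ∫⁻ y, a y ∂eta := lintegral_mono fun _ => min_le_right _ _

theorem measurable_G (r : List Bool → ℝ≥0∞) {h : Om → ℝ≥0∞} (hh : Measurable h) :
    Measurable (G r h) :=
  Measurable.tsum fun w => ((hh.comp (measurable_pre w)).const_mul _).const_mul _

theorem lint_G (r : List Bool → ℝ≥0∞) {h : Om → ℝ≥0∞} (hh : Measurable h) :
    ∫⁻ y, G r h y ∂eta ≤ (∑' w, r w) * ∫⁻ y, h y ∂eta := by
  have h1 : ∀ w, Measurable fun y => h (pre w y) := fun w => hh.comp (measurable_pre w)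
  rw [← ENNReal.tsum_mul_right]
  refine (lintegral_tsum fun w => (((h1 w).const_mul _).const_mul _).aemeasurable).le.trans
    (ENNReal.tsum_le_tsum fun w => ?_)
  rw [lintegral_const_mul _ ((h1 w).const_mul _), lintegral_const_mul _ (h1 w)]
  exact mul_le_mul_right (lint_pre w hh) _

theorem lint_G' (r : List Bool → ℝ≥0∞) {h : Om → ℝ≥0∞} (hh : Measurable h)
    (h1 : ∫⁻ y, h y ∂eta ≤ 1) : ∫⁻ y, G r h y ∂eta ≤ ∑' w, r w :=
  (lint_G r hh).trans (mul_le_of_le_one_right' h1)

theorem G_le (r r' : List Bool → ℝ≥0∞) (h : Om → ℝ≥0∞) (y : Om) :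
    G r h y ≤ G r' h y + G (fun w => r w - r' w) h y := by
  rw [G, G, G, ← ENNReal.tsum_add]
  refine ENNReal.tsum_le_tsum fun w => ?_
  rw [← add_mul]
  exact mul_le_mul_left le_add_tsub _

theorem exists_tail {W : Type} {r : W → ℝ≥0∞} (hr : ∑' w, r w ≤ 1) {ε : ℝ≥0∞} (hε : ε ≠ 0) :
    ∃ F : Finset W, ∀ r' : W → ℝ≥0∞, (∀ w ∉ F, r' w ≤ r w) → ∑' w, r' w ≤ ∑ w ∈ F, r' w + ε := by
  obtain ⟨F, hF⟩ := (ENNReal.tendsto_nhds_zero.1 (ENNReal.tendsto_tsum_compl_atTop_zero
    (ne_top_of_le_ne_top ENNReal.one_ne_top hr)) ε (pos_iff_ne_zero.2 hε)).exists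
  refine ⟨F, fun r' h => ?_⟩
  rw [← ENNReal.sum_add_tsum_compl F]
  exact add_le_add_right ((ENNReal.tsum_le_tsum fun w => h _ w.2).trans hF) _

theorem cw_ne_zero (w : List Bool) : cw w ≠ 0 := by simp [cw]

theorem cw_ne_top (w : List Bool) : cw w ≠ ∞ := by simp [cw]

theorem exists_short (K : ℕ) {ε : ℝ≥0∞} (hε : ε ≠ 0) :
    ∃ F : Finset (List Bool), ∀ w ∉ F, cw w * K ≤ ε := by
  obtain ⟨n, hn⟩ := ENNReal.exists_inv_two_pow_lt (a := ε / K) (by simp [hε])
  refine ⟨(List.finite_length_lt Bool n).toFinset, fun w hw => ?_⟩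
  have h1 : n ≤ w.length := by simpa using hw
  have h2 : cw w ≤ ε / K := (pow_le_pow_right_of_le_one' (by simp) h1).trans hn.le
  exact (mul_le_mul_left h2 _).trans (by rw [mul_comm]; exact ENNReal.mul_div_le)

theorem min_G_le {r : List Bool → ℝ≥0∞} (hr : ∑' w, r w ≤ 1) {F F' : Finset (List Bool)}
    {K K' : ℕ} (hK' : 0 < K') {ε : ℝ≥0∞} (hF : ∀ w ∉ F, cw w * K ≤ ε) (h : Om → ℝ≥0∞) (y : Om) :
    min 1 (G r h y) ≤ G (fun w => if w ∈ F then r w else 0) h y + ε +
      G r (fun y => min (h y) K' - K) y +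
      G (fun w => if w ∈ F' then (K' : ℝ≥0∞)⁻¹ * (cw w)⁻¹ else r w) h y := by
  by_cases hy : ∃ w ∈ F', (K' : ℝ≥0∞) ≤ h (pre w y)
  · obtain ⟨w, hw, hy⟩ := hy
    refine (min_le_left _ _).trans (le_add_left (le_trans ?_ (ENNReal.le_tsum w)))
    beta_reduce
    rw [if_pos hw, mul_assoc, ENNReal.inv_mul_cancel_left (cw_ne_zero w) (cw_ne_top w),
      ← ENNReal.inv_mul_cancel (a := K') (by simpa using hK'.ne') (by simp)]
    exact mul_le_mul_right hy _
  · refine (min_le_right _ _).trans (le_trans ?_ (add_le_add_left (add_le_add_left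
      (add_le_add_right (mul_le_of_le_one_left' (a := ε) hr) _) _) _))
    simp only [G, ← ENNReal.tsum_mul_right, ← ENNReal.tsum_add]
    refine ENNReal.tsum_le_tsum fun w => ?_
    by_cases hw : w ∈ F
    · rw [if_pos hw, add_assoc, add_assoc]
      exact le_self_add
    by_cases hw' : w ∈ F'
    · rw [min_eq_left (le_of_not_ge fun h => hy ⟨w, hw', h⟩), add_assoc (_ * _), ← mul_add]
      refine le_add_right (le_add_left (mul_le_mul_right ?_ _))
      refine (mul_le_mul_right (le_add_tsub (a := h (pre w y)) (b := K)) (cw w)).trans ?_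
      rw [mul_add]
      exact add_le_add_left (hF w hw) _
    · rw [if_neg hw']
      exact le_add_self

theorem lam_G_le {r : List Bool → ℝ≥0∞} (hr : ∑' w, r w ≤ 1) {F : Finset (List Bool)}
    {K : ℕ} {ε : ℝ≥0∞} (hε : ε ≠ 0) (hF : ∀ w ∉ F, cw w * K ≤ ε) : ∃ K' : ℕ, ∀ h : Om → ℝ≥0∞,
    Measurable h → ∫⁻ y, h y ∂eta ≤ 1 → lam (G r h) ≤
      ∫⁻ y, min (h y) K' - K ∂eta + (∑ w ∈ F, r w + ε + (ε + ε)) := by
  obtain ⟨F', hF'⟩ := exists_tail hr hε
  obtain ⟨K', hK', h2⟩ := ENNReal.exists_nat_pos_inv_mul_lt (a := ∑ w ∈ F', (cw w)⁻¹)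
    (ENNReal.sum_ne_top.2 fun w _ => ENNReal.inv_ne_top.2 (cw_ne_zero w)) hε
  refine ⟨K', fun h hh h1 => (lintegral_mono (min_G_le (F' := F') hr hK' hF h)).trans ?_⟩
  have h3 : Measurable fun y => min (h y) K' - K := (hh.min measurable_const).sub measurable_const
  rw [lintegral_add_right _ (measurable_G _ hh), lintegral_add_right _ (measurable_G _ h3),
    lintegral_add_right _ measurable_const, lintegral_const, measure_univ, mul_one,
    add_comm (_ + ε), add_assoc]
  refine add_le_add ((lint_G _ h3).trans (mul_le_of_le_one_left' hr)) (add_le_add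
    (add_le_add_left ((lint_G' _ hh h1).trans (le_of_eq ?_)) _) ((lint_G' _ hh h1).trans
      ((hF' _ fun w hw => (if_neg hw).le).trans (add_le_add_left ?_ _))))
  · rw [tsum_eq_sum (s := F) fun w hw => if_neg hw]
    exact Finset.sum_congr rfl fun w hw => if_pos hw
  · rw [Finset.sum_congr rfl fun w hw => if_pos hw, ← Finset.mul_sum]
    exact h2.le

variable {S T : Type}

theorem tendsto_lam {l : Filter S} {n : (T → ℝ≥0∞) → ℝ≥0∞} (hn : IsMean n)
    {d : S → List Bool → ℝ≥0∞} (hd1 : ∀ s, ∑' w, d s w ≤ 1)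
    (hd0 : ∀ w, Tendsto (fun s => d s w) l (𝓝 0)) {h : T → Om → ℝ≥0∞} (hm : ∀ t, Measurable (h t))
    (h1 : ∀ t, ∫⁻ y, h t y ∂eta ≤ 1) :
    Tendsto (fun s => n fun t => lam (G (d s) (h t))) l (𝓝 0) := by
  refine ENNReal.tendsto_nhds_zero.2 fun ε hε => ?_
  obtain ⟨δ, hδ, hδε⟩ : ∃ δ : ℝ≥0∞, δ ≠ 0 ∧ δ + (δ + δ + (δ + δ)) ≤ ε :=
    ⟨ε / 5, by simp [hε.ne'], le_trans (le_of_eq (by ring)) (ENNReal.mul_div_le (a := 5))⟩
  let θ : ℕ → ℝ≥0∞ := fun K => n fun t => ∫⁻ y, min (h t y) K ∂eta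
  have hθ : ∀ K, θ K ≤ 1 := fun K => hn.le_const fun t =>
    (lintegral_mono fun y => min_le_left _ _).trans (h1 t)
  obtain ⟨K, hK⟩ : ∃ K, ⨆ K, θ K ≤ θ K + δ := by
    by_contra! hc
    have := iSup_le fun K => (hc K).le
    rw [← ENNReal.iSup_add] at this
    exact (ENNReal.lt_add_right (ne_top_of_le_ne_top ENNReal.one_ne_top (iSup_le hθ)) hδ).not_ge
      this
  have hmid : ∀ K' : ℕ, n (fun t => ∫⁻ y, min (h t y) K' - K ∂eta) ≤ δ := fun K' => by
    refine ENNReal.le_of_add_le_add_left (ne_top_of_le_ne_top ENNReal.one_ne_top (hθ K))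
      (le_trans ?_ ((le_iSup θ (K + K')).trans hK))
    rw [← hn.add]
    refine hn.mono fun t => ?_
    rw [← lintegral_add_left ((hm t).min measurable_const)]
    refine lintegral_mono fun y => ?_
    rcases le_total (min (h t y) K') K with h2 | h2
    · rw [tsub_eq_zero_of_le h2, add_zero]
      exact min_le_min_left _ (by simp)
    · rw [min_eq_right (h2.trans (min_le_left _ _)), add_tsub_cancel_of_le h2]
      exact min_le_min_left _ (by simp)
  obtain ⟨F, hF⟩ := exists_short K hδ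
  have h2 := tendsto_finsetSum F fun w _ => hd0 w
  rw [Finset.sum_const_zero] at h2
  filter_upwards [ENNReal.tendsto_nhds_zero.1 h2 δ (pos_iff_ne_zero.2 hδ)] with s hs
  obtain ⟨K', hK'⟩ := lam_G_le (hd1 s) hδ hF
  refine (hn.le_add fun t => hK' _ (hm t) (h1 t)).trans (le_trans ?_ hδε)
  exact add_le_add (hmid K') (add_le_add_left (add_le_add_left hs _) _)

theorem dlp (U : Ultrafilter S) {n : (T → ℝ≥0∞) → ℝ≥0∞} (hn : IsMean n)
    {f : S → Om → ℝ≥0∞} (hf : ∀ s, Measurable (f s)) {ρ : S → List Bool → ℝ≥0∞}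
    (hρ : ∀ s, ∑' w, ρ s w ≤ 1) {h : T → Om → ℝ≥0∞} (hm : ∀ t, Measurable (h t))
    (h1 : ∀ t, ∫⁻ y, h t y ∂eta ≤ 1) :
    um U (fun s => n fun t => Phi fun y => f s y + G (ρ s) (h t) y) =
      n fun t => um U fun s => Phi fun y => f s y + G (ρ s) (h t) y := by
  let r : List Bool → ℝ≥0∞ := fun w => um U fun s => ρ s w
  have hr0 : ∀ w, Tendsto (fun s => ρ s w) U (𝓝 (r w)) := fun w => tendsto_um U _
  have hr : ∑' w, r w ≤ 1 := by
    rw [ENNReal.tsum_eq_iSup_sum]
    exact iSup_le fun F => le_of_tendsto' (tendsto_finsetSum F fun w _ => hr0 w) fun s =>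
      (ENNReal.sum_le_tsum F).trans (hρ s)
  have hr1 : ∀ w, r w ≠ ∞ := fun w =>
    ne_top_of_le_ne_top ENNReal.one_ne_top ((ENNReal.le_tsum w).trans hr)
  have he : Tendsto (fun s => ∑' w, (r w - ρ s w)) U (𝓝 0) := by
    refine ENNReal.tendsto_nhds_zero.2 fun ε hε => ?_
    have hδ : ε / 2 ≠ 0 := by simp [hε.ne']
    obtain ⟨F, hF⟩ := exists_tail hr hδ
    have h2 := tendsto_finsetSum F fun w _ =>
      ENNReal.Tendsto.sub (tendsto_const_nhds (x := r w)) (hr0 w) (.inl (hr1 w))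
    simp only [tsub_self, Finset.sum_const_zero] at h2
    filter_upwards [ENNReal.tendsto_nhds_zero.1 h2 _ (pos_iff_ne_zero.2 hδ)] with s hs
    exact (hF _ fun w _ => tsub_le_self).trans
      ((add_le_add_left hs _).trans (ENNReal.add_halves ε).le)
  have key : ∀ n' : (T → ℝ≥0∞) → ℝ≥0∞, IsMean n' →
      um U (fun s => n' fun t => Phi fun y => f s y + G (ρ s) (h t) y) =
      um U (fun s => n' fun t => ∫⁻ y, en (f s y) * en (G r (h t) y) ∂eta) := fun n' hn' => by
    simp only [← en_add]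
    apply le_antisymm
    · refine ((isMean_um U).mono (g := fun s => _ + ∑' w, (r w - ρ s w)) fun s =>
        hn'.le_add fun t => (Phi_le ((hf s).add (measurable_G r (hm t))) fun y => ?_).trans
        (add_le_add_right ((lam_le _).trans (lint_G' _ (hm t) (h1 t))) _)).trans ?_
      · rw [add_assoc]
        exact add_le_add_right (G_le _ _ _ _) _
      · rw [(isMean_um U).add, um_eq he, add_zero]
        rfl
    · have h2 := tendsto_lam (l := U) hn' (d := fun s w => ρ s w - r w)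
        (fun s => (ENNReal.tsum_le_tsum fun w => tsub_le_self).trans (hρ s)) (fun w => by
          simpa using ENNReal.Tendsto.sub (hr0 w) (tendsto_const_nhds (x := r w)) (.inl (hr1 w)))
        hm h1
      rw [← add_zero (um U fun s => n' fun t => Phi _), ← um_eq h2, ← (isMean_um U).add]
      refine (isMean_um U).mono fun s => ?_
      rw [← hn'.add]
      refine hn'.mono fun t => Phi_le ((hf s).add (measurable_G _ (hm t))) fun y => ?_
      rw [add_assoc]
      exact add_le_add_right (G_le _ _ _ _) _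
  rw [key n hn, mean_swap eta (isMean_um U) hn (a := fun s y => en (f s y))
    (b := fun t y => en (G r (h t) y)) (fun s => measurable_en.comp (hf s))
    (fun _ _ => en_le_one _) (fun t => measurable_en.comp (measurable_G r (hm t)))
    fun _ _ => en_le_one _]
  congr 1
  funext t
  exact (key _ (isMean_eval t)).symm

/-- The function on the states. -/
noncomputable def Psi (s : SS kT) : ℝ≥0∞ := Phi (hd (pm s))

theorem Psi_mul (s t : SS kT) : Psi (s * t) =
    Phi fun y => hd (pm s) y + G (fun w => pm s (.inl w)) (hd (pm t)) y := by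
  rw [Psi, pm_mul]
  congr 1
  funext y
  exact hd_conv _ _ y

theorem Psi_dlp (U : Ultrafilter (SS kT)) {n : (SS kT → ℝ≥0∞) → ℝ≥0∞} (hn : IsMean n) :
    um U (fun s => n fun t => Psi (s * t)) = n fun t => um U fun s => Psi (s * t) := by
  simp only [Psi_mul]
  exact dlp U hn (fun s => measurable_hd _) (fun s => (ENNReal.tsum_comp_le_tsum_of_injective
    Sum.inl_injective (pm s)).trans (pm s).tsum_coe.le) (fun s => measurable_hd _) fun t => lint_hd _

theorem Psi_lip (s t : SS kT) : Psi s ≤ Psi t + ENNReal.ofReal (dist s t) := by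
  refine (Phi_le (measurable_hd _) (hd_le _ _)).trans (add_le_add_right ((lam_le _).trans
    ((lint_sum _).trans ?_)) _)
  rw [dist_comm]
  exact tsum_sub_le t s

theorem Psi_val (z : Z) (t : SS kT) :
    Psi (st kT (PMF.pure (.inl [])) * (st kT (PMF.pure (.inr z)) * t)) = Phi (dz z) := by
  rw [Psi_mul, pm_mul, pm_st, pm_st]
  congr 1
  funext y
  rw [G, tsum_eq_single [] fun w hw => by simp [hw], hd_conv]
  simp [hd, ex_pure, dT, cw, pre]

end Pool.Agent.P.MP_2f0599_an.TQ
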