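import Pool.Agent.P.MP_2f0599_an.Defs3
import Pool.Agent.P.MP_2f0599_an.TQ.Mean

/-! A representation without invariant line, built from a function with the double limit property
that has two different constant translates. -/

set_option autoImplicit false

open scoped ENNReal Topology Uniformity
open Filter

namespace Pool.Agent.P.MP_2f0599_an.TQ

variable (𝕜 : Type) [RCLike 𝕜] (S : Type) [Semigroup S] [PseudoMetricSpace S]

/-- Bounded uniformly continuous functions, read on ultrafilters, with one more coordinate. -/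
def EE : Submodule 𝕜 (Option (Ultrafilter S) → 𝕜) where
  carrier := {x | UniformContinuous (fun s : S => x (some (pure s))) ∧
    ∀ U : Ultrafilter S, Tendsto (fun s : S => x (some (pure s))) U (𝓝 (x (some U)))}
  add_mem' := fun hx hy => ⟨hx.1.add hy.1, fun U => (hx.2 U).add (hy.2 U)⟩
  zero_mem' := ⟨uniformContinuous_const, fun _ => tendsto_const_nhds⟩
  smul_mem' := fun c _ hx => ⟨hx.1.const_smul c, fun U => (hx.2 U).const_smul c⟩

instance : LocallyConvexSpace ℝ (EE 𝕜 S) :=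
  Topology.IsInducing.locallyConvexSpace (f := (EE 𝕜 S).subtype.restrictScalars ℝ) .subtypeVal

/-- The kernel of the extra coordinate. -/
def HH : Submodule 𝕜 (EE 𝕜 S) := LinearMap.ker ((LinearMap.proj none).comp (EE 𝕜 S).subtype)

variable {S}

/-- The action on the coordinates. -/
def sh (r : S) : Option (Ultrafilter S) → Option (Ultrafilter S) :=
  Option.map (Ultrafilter.map (· * r))

/-- The representation. -/
def rep (hR : ∀ s t r : S, dist (s * r) (t * r) ≤ dist s t) : S →ₙ* Module.End 𝕜 (EE 𝕜 S) where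
  toFun r :=
    { toFun := fun x => ⟨fun i => x.1 (sh r i),
        x.2.1.comp (LipschitzWith.mk_one fun s t => hR s t r).uniformContinuous,
        fun U => x.2.2 (U.map (· * r))⟩
      map_add' := fun _ _ => rfl
      map_smul' := fun _ _ => rfl }
  map_mul' r r' := by
    ext x (_ | U)
    · rfl
    · change x.1 (some (U.map _)) = x.1 (some ((U.map _).map _))
      simp only [Ultrafilter.map_map, Function.comp_def, mul_assoc]

/-- The vector of a mean. -/
noncomputable def evN (Ψ : S → ℝ≥0∞) (N : (S → ℝ≥0∞) → ℝ≥0∞) : Option (Ultrafilter S) → 𝕜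
  | none => 1
  | some U => ((N fun t => um U fun s => Ψ (s * t)).toReal : ℝ)

/-- The multiples of the vectors of means. -/
def XX (Ψ : S → ℝ≥0∞) : Set (EE 𝕜 S) := {y | ∃ N, IsMean N ∧ y.1 = y.1 none • evN 𝕜 Ψ N}

variable {𝕜}

theorem dist_toReal {a b : ℝ≥0∞} {d : ℝ} (hd : 0 ≤ d) (ha : a ≤ 1) (hb : b ≤ 1)
    (h : a ≤ b + ENNReal.ofReal d) (h' : b ≤ a + ENNReal.ofReal d) :
    dist (a.toReal : 𝕜) (b.toReal : 𝕜) ≤ d := by
  have key : ∀ {a b : ℝ≥0∞}, b ≤ 1 → a ≤ b + ENNReal.ofReal d → a.toReal - b.toReal ≤ d :=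
    fun hb h => by
      have h1 := ne_top_of_le_ne_top ENNReal.one_ne_top hb
      have := ENNReal.toReal_mono (ENNReal.add_ne_top.2 ⟨h1, ENNReal.ofReal_ne_top⟩) h
      rw [ENNReal.toReal_add h1 ENNReal.ofReal_ne_top, ENNReal.toReal_ofReal hd] at this
      linarith
  rw [dist_eq_norm, ← RCLike.ofReal_sub, RCLike.norm_ofReal, abs_sub_le_iff]
  exact ⟨key hb h, key ha h'⟩

omit [Semigroup S] [PseudoMetricSpace S] in
theorem um_pure (s : S) (f : S → ℝ≥0∞) : um (pure s) f = f s := um_eq (tendsto_pure_nhds f s)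

theorem line {E : Type} [AddCommGroup E] [Module 𝕜 E] {L : Submodule 𝕜 E}
    (h : Module.finrank 𝕜 L = 1) : ∃ y ≠ 0, L = 𝕜 ∙ y := by
  obtain ⟨v, h0, hv⟩ := finrank_eq_one_iff'.1 h
  refine ⟨v.1, by simpa using h0, le_antisymm (fun w hw => ?_) (by simp)⟩
  obtain ⟨c, hc⟩ := hv ⟨w, hw⟩
  exact Submodule.mem_span_singleton.2 ⟨c, congrArg Subtype.val hc⟩

theorem not_unifFW (hR : ∀ s t r : S, dist (s * r) (t * r) ≤ dist s t)
    (hL : ∀ s t r : S, dist (r * s) (r * t) ≤ dist s t) {Ψ : S → ℝ≥0∞} (h1 : ∀ s, Ψ s ≤ 1)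
    (hlip : ∀ s t, Ψ s ≤ Ψ t + ENNReal.ofReal (dist s t))
    (hd : ∀ (U : Ultrafilter S) N, IsMean N →
      um U (fun s => N fun t => Ψ (s * t)) = N fun t => um U fun s => Ψ (s * t))
    {e r₀ r₁ : S} {c₀ c₁ : ℝ≥0∞} (h₀ : ∀ t, Ψ (e * (r₀ * t)) = c₀) (h₁ : ∀ t, Ψ (e * (r₁ * t)) = c₁)
    (hc : c₀ ≠ c₁) : ¬ UnifFW 𝕜 S 1 := by
  intro h
  have hN1 : ∀ {N}, IsMean N → ∀ (U : Ultrafilter S), N (fun t => um U fun s => Ψ (s * t)) ≤ 1 :=
    fun hN U => hN.le_const fun t => (isMean_um U).le_const fun s => h1 _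
  have hl : ∀ {s t : S} {d : ℝ}, dist s t ≤ d → Ψ s ≤ Ψ t + ENNReal.ofReal d := fun h =>
    (hlip _ _).trans (add_le_add_right (ENNReal.ofReal_le_ofReal h) _)
  have hE : ∀ {N}, IsMean N → evN 𝕜 Ψ N ∈ EE 𝕜 S := fun {N} hN => by
    refine ⟨(LipschitzWith.mk_one fun s s' => ?_).uniformContinuous, fun U => ?_⟩
    · refine dist_toReal dist_nonneg (hN1 hN _) (hN1 hN _) ?_ ?_ <;> simp only [um_pure]
      · exact hN.le_add fun t => hl (hR _ _ _)
      · exact hN.le_add fun t => hl ((hR _ _ _).trans (dist_comm _ _).le)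
    · simp only [evN, um_pure]
      refine (RCLike.continuous_ofReal.tendsto _).comp ((ENNReal.tendsto_toReal
        (ne_top_of_le_ne_top ENNReal.one_ne_top (hN1 hN U))).comp ?_)
      rw [← hd U N hN]
      exact tendsto_um U _
  have hT : ∀ r (x : EE 𝕜 S) i, (rep 𝕜 hR r x).1 i = x.1 (sh r i) := fun _ _ _ => rfl
  have hH : ∀ x : EE 𝕜 S, x ∈ HH 𝕜 S ↔ x.1 none = 0 := fun _ => Iff.rfl
  have hTX : ∀ r, ∀ y ∈ XX 𝕜 Ψ, rep 𝕜 hR r y ∈ XX 𝕜 Ψ := by
    rintro r y ⟨N, hN, hy⟩
    refine ⟨_, hN.comp (r * ·), funext fun i => ?_⟩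
    rw [hT, congrFun hy]
    rcases i with _ | U
    · rfl
    · simp only [Pi.smul_apply, evN, ← mul_assoc]
      rfl
  have hsm : ∀ y ∈ XX 𝕜 Ψ, ((𝕜 ∙ y : Submodule 𝕜 _) : Set (EE 𝕜 S)) ⊆ XX 𝕜 Ψ := by
    rintro y ⟨N, hN, hy⟩ z hz
    obtain ⟨c, rfl⟩ := Submodule.mem_span_singleton.1 hz
    exact ⟨N, hN, by rw [Submodule.coe_smul, Pi.smul_apply, smul_assoc, ← hy]⟩
  have hne : ∀ y ∈ XX 𝕜 Ψ, y ≠ 0 → y.1 none ≠ 0 := by
    rintro y ⟨N, hN, hy⟩ h0 h
    exact h0 (Subtype.ext (by rw [hy, h, zero_smul]; rfl))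
  have hsl : ∀ x y : EE 𝕜 S, y ∈ {y | y - x ∈ HH 𝕜 S} ∩ XX 𝕜 Ψ ↔
      ∃ N, IsMean N ∧ x.1 none • evN 𝕜 Ψ N = y.1 := fun x y =>
    ⟨fun ⟨h, N, hN, hy⟩ => ⟨N, hN, by rw [← sub_eq_zero.1 ((hH _).1 h), ← hy]⟩, fun ⟨N, hN, hy⟩ => by
      have : y.1 none = x.1 none := by rw [← hy]; exact mul_one _
      exact ⟨sub_eq_zero.2 this, N, hN, by rw [this, hy]⟩⟩
  have horb : ∀ (x : EE 𝕜 S) i, UniformContinuous fun s => (rep 𝕜 hR s x).1 i := by
    rintro x (_ | U)
    · exact uniformContinuous_const (b := x.1 none)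
    refine (Metric.uniformity_basis_dist.uniformContinuous_iff
      Metric.uniformity_basis_dist_le).2 fun ε hε => ?_
    obtain ⟨δ, hδ, h⟩ := Metric.uniformContinuous_iff.1 x.2.1 ε hε
    exact ⟨δ, hδ, fun s t hst => le_of_tendsto' (((rep 𝕜 hR s x).2.2 U).dist
      ((rep 𝕜 hR t x).2.2 U)) fun u => (h ((hL s t u).trans_lt hst)).le⟩
  have hcont : ∀ i, Continuous fun x : EE 𝕜 S => x.1 i := fun i =>
    (continuous_apply i).comp continuous_subtype_val
  let y₀ : EE 𝕜 S := ⟨_, hE (isMean_eval e)⟩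
  have hy₀ : y₀ ∈ XX 𝕜 Ψ := ⟨_, isMean_eval e, (one_smul _ _).symm⟩
  obtain ⟨L, ⟨hL1, hLX⟩, hinv⟩ := h (EE 𝕜 S) (rep 𝕜 hR) (XX 𝕜 Ψ) (HH 𝕜 S) (by
    refine ⟨fun K _ g hg => ?_, fun x => continuous_induced_rng.2
      (continuous_pi fun i => (horb x i).continuous), ⟨𝕜 ∙ y₀, finrank_span_singleton fun h =>
        one_ne_zero (congrArg (fun x : EE 𝕜 S => x.1 none) h), hsm _ hy₀⟩, ?_,
      isClosed_eq (hcont none) continuous_const, ?_, ?_, fun x => ?_⟩
    · have : (comap (fun s : S => fun x : K => rep 𝕜 hR s x) (𝓝 g)).NeBot :=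
        comap_neBot fun t ht => by
          obtain ⟨_, ht, a, rfl⟩ := mem_closure_iff_nhds.1 hg t ht
          exact ⟨a, ht⟩
      obtain ⟨V, hV⟩ := (comap (fun s : S => fun x : K => rep 𝕜 hR s x) (𝓝 g)).exists_ultrafilter_le
      have h2 : ∀ (x : K) i, Tendsto (fun s => x.1.1 (sh s i)) V (𝓝 ((g x).1 i)) := fun x i =>
        ((hcont i).tendsto _).comp (tendsto_pi_nhds.1 (tendsto_iff_comap.2 hV) x)
      refine continuous_induced_rng.2 (continuous_pi fun i => ((hcont (i.map fun U =>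
        V.bind fun s => U.map (· * s))).comp continuous_subtype_val).congr fun x => ?_)
      rcases i with _ | U
      · exact tendsto_nhds_unique tendsto_const_nhds (h2 x none)
      · refine tendsto_nhds_unique (x.1.2.2 _) (tendsto_nhds.2 fun O hO ha => mem_bind'.2 ?_)
        filter_upwards [h2 x (some U) (hO.mem_nhds ha)] with s hs
        exact x.1.2.2 _ (hO.mem_nhds hs)
    · rintro r L ⟨hL1, hLX⟩
      obtain ⟨y, h0, rfl⟩ := line hL1
      have hy := hLX (Submodule.mem_span_singleton_self y)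
      rw [Submodule.map_span, Set.image_singleton]
      exact ⟨finrank_span_singleton fun h =>
        hne y hy h0 (congrArg (fun x : EE 𝕜 S => x.1 none) h), hsm _ (hTX r y hy)⟩
    · rintro r _ ⟨x, hx, rfl⟩
      exact hx
    · rw [HH, (LinearMap.quotKerEquivOfSurjective _ fun c => ⟨c • y₀, mul_one c⟩).finrank_eq,
        Module.finrank_self]
    · have : Subtype.val '' ({y | y - x ∈ HH 𝕜 S} ∩ XX 𝕜 Ψ) =
          (fun N => x.1 none • evN 𝕜 Ψ N) '' {N | IsMean N} := by
        ext z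
        exact ⟨fun ⟨y, hy, e⟩ => e ▸ (hsl x y).1 hy, fun ⟨N, hN, e⟩ =>
          ⟨⟨z, e ▸ (EE 𝕜 S).smul_mem _ (hE hN)⟩, (hsl x _).2 ⟨N, hN, e⟩, rfl⟩⟩
      rw [Subtype.isCompact_iff, this]
      refine isCompact_means.image_of_continuousOn (ContinuousOn.const_smul
        (g := evN 𝕜 Ψ) (continuousOn_pi.2 ?_) (x.1 none))
      rintro (_ | U)
      · exact continuousOn_const
      · exact RCLike.continuous_ofReal.comp_continuousOn (ENNReal.continuousOn_toReal.comp
          (continuous_apply _).continuousOn fun N hN =>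
            ne_top_of_le_ne_top ENNReal.one_ne_top (hN1 hN U)))
    (fun r => continuous_induced_rng.2 (continuous_pi fun i => hcont (sh r i))) (by
      rintro ⟨r, y⟩ -
      refine tendsto_subtype_rng.2 (tendsto_pi_nhds.2 fun i => Tendsto.congr_dist
        ((hcont (sh r i)).comp continuous_snd).continuousWithinAt (squeeze_zero'
          (g := fun p => ‖p.2.1 none‖ * dist r p.1) (.of_forall fun _ => dist_nonneg)
          (eventually_nhdsWithin_of_forall ?_) ?_))
      · rintro ⟨r', y'⟩ ⟨-, N, hN, hy⟩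
        change dist (y'.1 (sh r i)) (y'.1 (sh r' i)) ≤ ‖y'.1 none‖ * dist r r'
        rw [congrFun hy (sh r i), congrFun hy (sh r' i), Pi.smul_apply, Pi.smul_apply, dist_smul₀]
        refine mul_le_mul_of_nonneg_left ?_ (norm_nonneg _)
        rcases i with _ | U
        · exact (dist_self _).trans_le dist_nonneg
        · exact dist_toReal dist_nonneg (hN1 hN _) (hN1 hN _)
            (hN.le_add fun t => (isMean_um U).le_add fun s => hl ((hR _ _ _).trans (hL _ _ _)))
            (hN.le_add fun t => (isMean_um U).le_add fun s =>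
              hl ((hR _ _ _).trans ((hL _ _ _).trans (dist_comm _ _).le)))
      · have : Continuous fun p : S × EE 𝕜 S => ‖p.2.1 none‖ * dist r p.1 :=
          ((hcont none).comp continuous_snd).norm.mul (continuous_const.dist continuous_fst)
        simpa using (this.tendsto (r, y)).mono_left nhdsWithin_le_nhds)
    (fun _ x => sub_self (x.1 none))
    (fun x => tendsto_subtype_rng.2 (tendsto_pi_nhds.2 fun i =>
      tendsto_zero_iff_norm_tendsto_zero.2 ((tendsto_uniformity_iff_dist_tendsto_zero.1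
        (horb x i)).congr fun _ => dist_eq_norm _ _))) (by
      intro x y hy y' hy' a b ha hb hab
      obtain ⟨N, hN, e⟩ := (hsl x y).1 hy
      obtain ⟨N', hN', e'⟩ := (hsl x y').1 hy'
      refine (hsl x _).2 ⟨_, hN.convex hN' (a := ENNReal.ofReal a) (b := ENNReal.ofReal b)
        (by rw [← ENNReal.ofReal_add ha hb, hab, ENNReal.ofReal_one]), ?_⟩
      change _ = a • y.1 + b • y'.1
      rw [← e, ← e', smul_comm a, smul_comm b, ← smul_add]
      congr 1
      funext i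
      rcases i with _ | U
      · change (1 : 𝕜) = a • 1 + b • 1
        rw [← add_smul, hab, one_smul]
      · have h2 := fun {N} (hN : IsMean N) (a : ℝ) => ENNReal.mul_ne_top (ENNReal.ofReal_ne_top (r := a))
          (ne_top_of_le_ne_top ENNReal.one_ne_top (hN1 hN U))
        simp only [evN, Pi.add_apply, Pi.smul_apply, ENNReal.toReal_add (h2 hN a) (h2 hN' b),
          ENNReal.toReal_mul, ENNReal.toReal_ofReal ha, ENNReal.toReal_ofReal hb,
          RCLike.real_smul_ofReal, RCLike.ofReal_add, RCLike.ofReal_mul])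
  obtain ⟨y, h0, rfl⟩ := line hL1
  have hy := hLX (Submodule.mem_span_singleton_self y)
  have hfix : ∀ r, rep 𝕜 hR r y = y := fun r => by
    obtain ⟨c, hc⟩ := Submodule.mem_span_singleton.1
      ((hinv r).le (Submodule.mem_map_of_mem (Submodule.mem_span_singleton_self y)))
    have h2 : c * y.1 none = y.1 none := congrArg (fun x : EE 𝕜 S => x.1 none) hc
    rw [← hc, (mul_eq_right₀ (hne y hy h0)).1 h2, one_smul]
  obtain ⟨N, hN, hy'⟩ := hy
  have h2 : y.1 (some (pure (e * r₀))) = y.1 (some (pure (e * r₁))) :=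
    congrArg (fun x : EE 𝕜 S => x.1 (some (pure e))) ((hfix r₀).trans (hfix r₁).symm)
  rw [congrFun hy' (some _), congrFun hy' (some (pure (e * r₁)))] at h2
  have h3 := mul_left_cancel₀ (hne y ⟨N, hN, hy'⟩ h0) h2
  simp only [evN, um_pure, mul_assoc, h₀, h₁, hN.const, RCLike.ofReal_inj] at h3
  exact hc ((ENNReal.toReal_eq_toReal_iff' (ne_top_of_le_ne_top ENNReal.one_ne_top (h₀ e ▸ h1 _))
    (ne_top_of_le_ne_top ENNReal.one_ne_top (h₁ e ▸ h1 _))).1 h3)

end Pool.Agent.P.MP_2f0599_an.TQ
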