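import Pool.Agent.P.MP_2f0599_an.TQ.Kern

/-! The kernel built from the binary tree, and the densities of its states. -/

set_option autoImplicit false

open scoped ENNReal
open MeasureTheory

namespace Pool.Agent.P.MP_2f0599_an.TQ

/-- Nodes of the tree and graded copies of a cemetery point. -/
abbrev Z : Type := List Bool ⊕ ℕ

/-- Zoom maps together with the points of `Z`. -/
abbrev TT : Type := List Bool ⊕ Z

/-- The level. -/
def deg : Z → ℕ
  | .inl x => x.length
  | .inr n => n

/-- The children. -/
def ch : Z → Bool → Z
  | .inl x, c => .inl (x ++ [c])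
  | .inr n, _ => .inr (n + 1)

/-- Removing the first letter. -/
def strip (b : Bool) : Z → Z
  | .inl [] => .inl []
  | .inl (c :: x) => if c = b then .inl x else .inr x.length
  | .inr n => .inr (n - 1)

/-- A fair coin. -/
noncomputable def coin : PMF Bool := PMF.uniformOfFintype Bool

/-- A random descendant. -/
noncomputable def up : ℕ → Z → PMF Z
  | 0, z => PMF.pure z
  | k + 1, z => coin.bind fun c => up k (ch z c)

/-- The action of the zoom maps. -/
noncomputable def act : List Bool → Z → PMF Z
  | [], z => PMF.pure z
  | b :: w, z => coin.bind fun c => act w (strip b (ch z c))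

/-- Raising to a given level. -/
noncomputable def rs (n : ℕ) (z : Z) : PMF Z := up (n - deg z) z

/-- The level of an index. -/
def dgT : TT → ℕ
  | .inl _ => 0
  | .inr z => deg z

/-- The kernel. -/
noncomputable def pT : TT → TT → PMF TT
  | .inl w, .inl w' => PMF.pure (.inl (w' ++ w))
  | .inl w, .inr z => (act w z).map .inr
  | .inr z, t => (rs (dgT t) z).map .inr

theorem deg_ch (z : Z) (c : Bool) : deg (ch z c) = deg z + 1 := by
  rcases z with x | n <;> simp [deg, ch]

theorem deg_sc (b : Bool) (z : Z) (c : Bool) : deg (strip b (ch z c)) = deg z := by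
  rcases z with (_ | ⟨d, x⟩) | n
  · by_cases h : c = b <;> simp [deg, ch, strip, h]
  · by_cases h : d = b <;> simp [deg, ch, strip, h]
  · simp [deg, ch, strip]

theorem ch_sc (b : Bool) (z : Z) (c c' : Bool) :
    ch (strip b (ch z c)) c' = strip b (ch (ch z c) c') := by
  rcases z with (_ | ⟨d, x⟩) | n
  · by_cases h : c = b <;> simp [ch, strip, h]
  · by_cases h : d = b <;> simp [ch, strip, h]
  · simp [ch, strip]

theorem up_add (j k : ℕ) (z : Z) : up (j + k) z = (up j z).bind (up k) := by
  induction j generalizing z with
  | zero => simp [up]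
  | succ j ih => simp only [Nat.succ_add, up, ih, PMF.bind_bind]

theorem up_congr {U : Type} {F G : Z → PMF U} (k : ℕ) (z : Z)
    (h : ∀ y, deg y = deg z + k → F y = G y) : (up k z).bind F = (up k z).bind G := by
  induction k generalizing z with
  | zero => simpa [up] using h z rfl
  | succ k ih =>
    simp only [up, PMF.bind_bind]
    congr 1
    funext c
    exact ih _ fun y hy => h y (by rw [hy, deg_ch]; omega)

theorem act_congr {U : Type} {F G : Z → PMF U} (w : List Bool) (z : Z)
    (h : ∀ y, deg y = deg z → F y = G y) : (act w z).bind F = (act w z).bind G := by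
  induction w generalizing z with
  | nil => simpa [act] using h z rfl
  | cons b w ih =>
    simp only [act, PMF.bind_bind]
    congr 1
    funext c
    exact ih _ fun y hy => h y (by rw [hy, deg_sc])

theorem act_append (w w' : List Bool) (z : Z) : act (w ++ w') z = (act w z).bind (act w') := by
  induction w generalizing z with
  | nil => simp [act]
  | cons b w ih => simp only [List.cons_append, act, ih, PMF.bind_bind]

theorem act_up1 (b : Bool) (k : ℕ) (z : Z) :
    (coin.bind fun c => up k (strip b (ch z c))) = (up k z).bind (act [b]) := by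
  induction k generalizing z with
  | zero => simp [up, act]
  | succ k ih => simp only [up, ch_sc, ih, PMF.bind_bind]

theorem act_up (w : List Bool) (k : ℕ) (z : Z) :
    (act w z).bind (up k) = (up k z).bind (act w) := by
  induction w generalizing z with
  | nil =>
    have : act [] = PMF.pure := rfl
    simp [this]
  | cons b w ih =>
    have h : act (b :: w) = fun y => (act [b] y).bind (act w) := funext (act_append [b] w)
    rw [act, PMF.bind_bind, h, ← PMF.bind_bind (up k z), ← act_up1, PMF.bind_bind]
    simp only [ih]

theorem act_rs (w : List Bool) (n : ℕ) (z : Z) :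
    (act w z).bind (rs n) = (rs n z).bind (act w) := by
  rw [rs, ← act_up]
  exact act_congr w z fun y hy => by rw [rs, hy]

theorem rs_rs (m n : ℕ) (z : Z) : (rs m z).bind (rs n) = rs (max m n) z := by
  rw [rs, up_congr (G := up (n - (deg z + (m - deg z)))) _ z fun y hy => by rw [rs, hy], ← up_add, rs]
  congr 1
  omega

theorem rs_zero (z : Z) : rs 0 z = PMF.pure z := by simp [rs, up]

theorem pT_assoc (s t u : TT) : (pT s t).bind (fun v => pT v u) = (pT t u).bind (pT s) := by
  rcases s with w | z <;> rcases t with w' | z'
  · rcases u with w'' | z''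
    · simp [pT]
    · simp only [pT, PMF.pure_bind, PMF.bind_map, Function.comp_def, act_append, PMF.map_bind]
  · simp only [pT, PMF.bind_map, Function.comp_def, ← PMF.map_bind, act_rs]
  · rcases u with w'' | z''
    · simp [pT, dgT, rs_zero, PMF.pure_map]
    · simp only [pT, dgT, rs_zero, PMF.pure_map, PMF.pure_bind, PMF.bind_map, Function.comp_def]
      rw [act_congr (G := fun _ => (rs (deg z'') z).map .inr) w' z'' fun y hy => by rw [hy],
        PMF.bind_const]
  · simp only [pT, PMF.bind_map, Function.comp_def, ← PMF.map_bind, rs_rs]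
    rw [rs, rs, up_congr (G := fun _ => rs (max (deg z') (dgT u)) z) _ z' fun y hy => by
      simp only [dgT, hy]; congr 1; omega, PMF.bind_const]
    rfl

/-- The kernel of the example. -/
noncomputable def kT : Ker TT := ⟨pT, pT_assoc⟩

/-- Expectation. -/
noncomputable def ex {U : Type} (μ : PMF U) (f : U → ℝ≥0∞) : ℝ≥0∞ := ∑' a, μ a * f a

section ex
variable {U V : Type}

theorem ex_pure (a : U) (f : U → ℝ≥0∞) : ex (PMF.pure a) f = f a := by
  rw [ex, tsum_eq_single a fun b hb => by simp [hb]]
  simp

theorem ex_bind (μ : PMF U) (F : U → PMF V) (f : V → ℝ≥0∞) :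
    ex (μ.bind F) f = ex μ fun a => ex (F a) f := by
  simp only [ex, PMF.bind_apply, ← ENNReal.tsum_mul_right, ← ENNReal.tsum_mul_left, mul_assoc]
  exact ENNReal.tsum_comm

theorem ex_map (μ : PMF U) (F : U → V) (f : V → ℝ≥0∞) : ex (μ.map F) f = ex μ fun a => f (F a) := by
  simp only [PMF.map, ex_bind, Function.comp_def, ex_pure]

theorem ex_const (μ : PMF U) (c : ℝ≥0∞) : ex μ (fun _ => c) = c := by
  rw [ex, ENNReal.tsum_mul_right, μ.tsum_coe, one_mul]

theorem ex_mul (μ : PMF U) (c : ℝ≥0∞) (f : U → ℝ≥0∞) : ex μ (fun a => c * f a) = c * ex μ f := by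
  simp only [ex, ← ENNReal.tsum_mul_left, mul_left_comm]

theorem ex_coin (f : Bool → ℝ≥0∞) : ex coin f = 2⁻¹ * (f true + f false) := by
  simp [ex, coin, mul_add]

end ex

/-- The boundary of the tree. -/
abbrev Om : Type := ℕ → Bool

/-- Adding a first letter. -/
def cons (b : Bool) (y : Om) : Om := fun n => Nat.casesOn n b y

/-- Adding a word in front. -/
def pre : List Bool → Om → Om
  | [], y => y
  | b :: w, y => cons b (pre w y)

/-- The density of the uniform distribution on a cylinder. -/
noncomputable def dn : List Bool → Om → ℝ≥0∞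
  | [], _ => 1
  | c :: x, y => if y 0 = c then 2 * dn x (fun n => y (n + 1)) else 0

/-- The density of a point of `Z`. -/
noncomputable def dz : Z → Om → ℝ≥0∞
  | .inl x => dn x
  | .inr _ => fun _ => 0

/-- The density of an index. -/
noncomputable def dT : TT → Om → ℝ≥0∞
  | .inl _ => fun _ => 0
  | .inr z => dz z

/-- The weight of a word. -/
noncomputable def cw (w : List Bool) : ℝ≥0∞ := 2⁻¹ ^ w.length

/-- The density of a distribution. -/
noncomputable def hd (μ : PMF TT) (y : Om) : ℝ≥0∞ := ex μ fun t => dT t y

/-- The uniform measure. -/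
noncomputable def eta : Measure Om := Measure.infinitePi fun _ => coin.toMeasure

instance : IsProbabilityMeasure eta := by unfold eta; infer_instance

theorem half_two (a : ℝ≥0∞) : 2⁻¹ * (2 * a) = a := by
  rw [← mul_assoc, ENNReal.inv_mul_cancel (by simp) (by simp), one_mul]

theorem dn_cons (b c : Bool) (x : List Bool) (y : Om) :
    dn (c :: x) (cons b y) = if b = c then 2 * dn x y else 0 := rfl

theorem dn_split (x : List Bool) (y : Om) : dn (x ++ [true]) y + dn (x ++ [false]) y = 2 * dn x y := by
  induction x generalizing y with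
  | nil => cases h : y 0 <;> simp [dn, h]
  | cons c x ih =>
    simp only [List.cons_append, dn]
    split_ifs
    · rw [← mul_add, ih]
    · simp

theorem dz_split (z : Z) (y : Om) : dz (ch z true) y + dz (ch z false) y = 2 * dz z y := by
  rcases z with x | n
  · exact dn_split x y
  · simp [dz, ch]

theorem ex_up (k : ℕ) (z : Z) (y : Om) : ex (up k z) (fun v => dz v y) = dz z y := by
  induction k generalizing z with
  | zero => exact ex_pure _ _
  | succ k ih => simp only [up, ex_bind, ih, ex_coin, dz_split, half_two]

theorem dz_strip (b : Bool) (z : Z) (c : Bool) (y : Om) :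
    dz (strip b (ch z c)) y = 2⁻¹ * dz (ch z c) (cons b y) := by
  rcases z with (_ | ⟨d, x⟩) | n
  · by_cases h : c = b
    · simp only [ch, strip, List.nil_append, h, if_true, dz, dn_cons, half_two]
    · simp [ch, strip, h, dz, dn_cons, Ne.symm h]
  · by_cases h : d = b
    · simp only [ch, strip, List.cons_append, h, if_true, dz, dn_cons, half_two]
    · simp [ch, strip, h, dz, dn_cons, Ne.symm h]
  · simp [ch, strip, dz]

theorem ex_act (w : List Bool) (z : Z) (y : Om) :
    ex (act w z) (fun v => dz v y) = cw w * dz z (pre w y) := by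
  induction w generalizing z with
  | nil => simp [act, ex_pure, cw, pre]
  | cons b w ih =>
    simp only [act, ex_bind, ih, ex_coin, dz_strip, ← mul_add, dz_split, half_two, pre, cw,
      List.length_cons, pow_succ]
    ring

theorem hd_conv (μ ν : PMF TT) (y : Om) : hd (conv kT μ ν) y =
    hd μ y + ∑' w, μ (.inl w) * (cw w * hd ν (pre w y)) := by
  have h1 : ∀ s : TT, (ex ν fun t => ex (pT s t) fun v => dT v y) =
      dT s y + Sum.elim (fun w => cw w * hd ν (pre w y)) (fun _ => 0) s := by
    rintro (w | z)
    · rw [Sum.elim_inl, hd, ← ex_mul, dT, zero_add]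
      congr 1
      funext t
      rcases t with w' | z
      · simp [pT, ex_pure, dT]
      · simp only [pT, ex_map, dT, ex_act]
    · simp only [pT, ex_map, dT, rs, ex_up, ex_const, Sum.elim_inr, add_zero]
  have h2 : hd (conv kT μ ν) y = ex μ fun s => ex ν fun t => ex (pT s t) fun v => dT v y := by
    simp only [hd, conv, ex_bind, kT]
  rw [h2]
  simp only [h1]
  simp only [ex, mul_add, ENNReal.tsum_add, hd]
  congr 1
  refine (Sum.inl_injective.tsum_eq (f := fun s : TT => μ s * Sum.elim _ _ s) ?_).symm
  rintro (w | z) h
  · exact ⟨w, rfl⟩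
  · simp at h

theorem measurable_cons2 : Measurable fun p : Bool × Om => cons p.1 p.2 :=
  measurable_pi_lambda _ fun n => by
    cases n
    · exact measurable_fst
    · exact (measurable_pi_apply _).comp measurable_snd

theorem measurable_cons (b : Bool) : Measurable (cons b) :=
  measurable_cons2.comp measurable_prodMk_left

theorem measurable_pre (w : List Bool) : Measurable (pre w) := by
  induction w with
  | nil => exact measurable_id
  | cons b w ih => exact (measurable_cons b).comp ih

theorem measurable_dn (x : List Bool) : Measurable (dn x) := by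
  induction x with
  | nil => exact measurable_const
  | cons c x ih =>
    refine Measurable.ite (measurableSet_eq_fun (measurable_pi_apply 0) measurable_const) ?_
      measurable_const
    exact (ih.comp (measurable_pi_lambda _ fun n => measurable_pi_apply _)).const_mul 2

theorem measurable_dT (t : TT) : Measurable (dT t) := by
  rcases t with w | x | n
  · exact measurable_const
  · exact measurable_dn x
  · exact measurable_const

theorem measurable_hd (μ : PMF TT) : Measurable (hd μ) :=
  Measurable.tsum fun t => (measurable_dT t).const_mul _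

theorem eta_map : (coin.toMeasure.prod eta).map (fun p : Bool × Om => cons p.1 p.2) = eta := by
  classical
  refine Measure.eq_infinitePi _ fun s t ht => ?_
  obtain ⟨N, hN⟩ : ∃ N, s ⊆ Finset.range (N + 1) :=
    ⟨s.sup id, fun i hi => Finset.mem_range.2 (Nat.lt_succ_of_le (Finset.le_sup (f := id) hi))⟩
  let t' : ℕ → Set Bool := fun i => if i ∈ s then t i else Set.univ
  have h1 : (fun p : Bool × Om => cons p.1 p.2) ⁻¹' Set.pi s t =
      t' 0 ×ˢ Set.pi (Finset.range N) fun i => t' (i + 1) := by
    ext ⟨b, y⟩
    simp only [Set.mem_preimage, Set.mem_pi, Finset.mem_coe, Set.mem_prod, Finset.mem_range, t']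
    constructor
    · intro h
      refine ⟨?_, fun i _ => ?_⟩ <;> split_ifs with h'
      exacts [h 0 h', trivial, h (i + 1) h', trivial]
    · rintro ⟨h1, h2⟩ (_ | i) hi
      · rwa [if_pos hi] at h1
      · have := h2 i (by simpa using hN hi)
        rwa [if_pos hi] at this
  rw [Measure.map_apply measurable_cons2 (MeasurableSet.pi s.countable_toSet fun i _ => ht i), h1,
    Measure.prod_prod, eta, Measure.infinitePi_pi _ fun i _ => MeasurableSet.of_discrete, mul_comm,
    ← Finset.prod_range_succ' fun i => coin.toMeasure (t' i),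
    ← Finset.prod_subset hN fun i _ hi => by simp only [t', if_neg hi, measure_univ]]
  exact Finset.prod_congr rfl fun i hi => by simp [t', hi]

theorem lint_eta {g : Om → ℝ≥0∞} (hg : Measurable g) :
    ∫⁻ y, g y ∂eta = 2⁻¹ * (∫⁻ y, g (cons true y) ∂eta + ∫⁻ y, g (cons false y) ∂eta) := by
  conv_lhs => rw [← eta_map]
  rw [lintegral_map hg measurable_cons2, 
    lintegral_prod (fun p : Bool × Om => g (cons p.1 p.2)) (hg.comp measurable_cons2).aemeasurable,
    lintegral_fintype]
  simp [coin, mul_add, mul_comm]

theorem lint_pre (w : List Bool) {g : Om → ℝ≥0∞} (hg : Measurable g) :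
    cw w * ∫⁻ y, g (pre w y) ∂eta ≤ ∫⁻ y, g y ∂eta := by
  induction w generalizing g with
  | nil => simp [cw, pre]
  | cons b w ih =>
    have h := ih (hg.comp (measurable_cons b))
    rw [lint_eta hg, cw, List.length_cons, pow_succ', mul_assoc]
    refine mul_le_mul_right (h.trans ?_) _
    cases b
    exacts [le_add_self, le_self_add]

theorem lint_dn (x : List Bool) : ∫⁻ y, dn x y ∂eta = 1 := by
  induction x with
  | nil => simp [dn]
  | cons c x ih =>
    rw [lint_eta (measurable_dn _)]
    cases c <;> simp [dn_cons, lintegral_const_mul _ (measurable_dn x), ih,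
      ENNReal.inv_mul_cancel]

theorem lint_dT (t : TT) : ∫⁻ y, dT t y ∂eta ≤ 1 := by
  rcases t with w | x | n
  · simp [dT]
  · exact (lint_dn x).le
  · simp [dT, dz]

theorem lint_sum (r : TT → ℝ≥0∞) : ∫⁻ y, ∑' t, r t * dT t y ∂eta ≤ ∑' t, r t := by
  rw [lintegral_tsum fun t => ((measurable_dT t).const_mul _).aemeasurable]
  refine ENNReal.tsum_le_tsum fun t => ?_
  rw [lintegral_const_mul _ (measurable_dT t)]
  exact mul_le_of_le_one_right' (lint_dT t)

theorem lint_hd (μ : PMF TT) : ∫⁻ y, hd μ y ∂eta ≤ 1 := (lint_sum μ).trans μ.tsum_coe.le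

theorem hd_le (μ ν : PMF TT) (y : Om) : hd μ y ≤ hd ν y + ∑' t, (μ t - ν t) * dT t y := by
  rw [hd, hd, ex, ex, ← ENNReal.tsum_add]
  refine ENNReal.tsum_le_tsum fun t => ?_
  rw [← add_mul]
  exact mul_le_mul_left le_add_tsub _

end Pool.Agent.P.MP_2f0599_an.TQ
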