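import Pool.Agent.P.MP_2f0599_an.Main
import Pool.Agent.P.MP_2f0599_an.TQ.Tree

/-! The invariant mean on the weakly almost periodic functionals of the tree algebra. -/

set_option autoImplicit false

open scoped ENNReal Topology
open Filter

namespace Pool.Agent.P.MP_2f0599_an.TQ

/-- Harmonic functions on the tree. -/
def Harm (V : List Bool → ℝ) : Prop := ∀ x, V (x ++ [true]) + V (x ++ [false]) = 2 * V x

theorem harnack {W : List Bool → ℝ} (h0 : ∀ x, 0 ≤ W x) (hW : Harm W) (u v : List Bool) :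
    W (u ++ v) ≤ 2 ^ v.length * W u := by
  induction v generalizing u with
  | nil => simp
  | cons c v ih =>
    have h1 : W (u ++ [c]) ≤ 2 * W u := by
      cases c <;> linarith [hW u, h0 (u ++ [true]), h0 (u ++ [false])]
    have h2 := ih (u ++ [c])
    rw [List.append_assoc, List.singleton_append] at h2
    rw [List.length_cons, pow_succ, mul_assoc]
    exact h2.trans (mul_le_mul_of_nonneg_left h1 (by positivity))

theorem block {W : List Bool → ℝ} (h0 : ∀ x, 0 ≤ W x) (hW : Harm W) (v : List Bool) {δ : ℝ}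
    (hδ : 0 < δ) : ∃ u, W (u ++ v) ≤ W [] + δ := by
  have hb : BddBelow (Set.range W) := ⟨0, by rintro _ ⟨x, rfl⟩; exact h0 x⟩
  have hp : (0 : ℝ) < 2 ^ v.length := by positivity
  obtain ⟨u, hu⟩ := exists_lt_of_ciInf_lt (lt_add_of_pos_right (⨅ x, W x) (div_pos hδ hp))
  have h1 := harnack (W := fun x => W x - ⨅ x, W x) (fun x => sub_nonneg.2 (ciInf_le hb x))
    (fun x => by linarith [hW x]) u v
  have h2 := (lt_div_iff₀' hp).1 (sub_lt_iff_lt_add'.2 hu)
  exact ⟨u, by linarith [ciInf_le hb []]⟩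

theorem threads {V : List Bool → ℝ} (h0 : ∀ x, 0 ≤ V x) (hV : Harm V)
    (hinf : ∀ δ > 0, ∃ v, V v ≤ δ) {c : ℝ} (hc : 0 < c) : ∃ x w : ℕ → List Bool,
    (∀ j, j ≤ (w j).length) ∧ ∀ j i, j < i → ∃ r, x i = w j ++ r ∧ V r < c := by
  let P : (List Bool → ℝ) → Prop := fun W => (∀ x, 0 ≤ W x) ∧ Harm W ∧ W [] < c
  have step : ∀ W : Subtype P, ∃ u v : List Bool, 0 < u.length ∧
      P fun y => W.1 (u ++ v ++ y) + V (v ++ y) := by
    rintro ⟨W, h1, h2, h3⟩
    have hδ : 0 < (c - W []) / 3 := by linarith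
    obtain ⟨v, hv⟩ := hinf _ hδ
    obtain ⟨u, hu⟩ := block h1 h2 (true :: v) hδ
    refine ⟨u ++ [true], v, by simp, fun y => add_nonneg (h1 _) (h0 _), fun y => ?_, ?_⟩
    · have h4 := h2 (u ++ [true] ++ v ++ y)
      have h5 := hV (v ++ y)
      simp only [List.append_assoc] at h4 h5 ⊢
      linarith
    · simp only [List.append_assoc, List.append_nil, List.singleton_append]
      linarith
  choose u v hu hP using step
  let q : ℕ → Subtype P := fun i =>
    Nat.rec ⟨fun _ => 0, fun _ => le_rfl, fun _ => by simp, hc⟩ (fun _ W => ⟨_, hP W⟩) i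
  let x : ℕ → List Bool := fun i => Nat.rec [] (fun i x => x ++ (u (q i) ++ v (q i))) i
  have hq : ∀ i y, (q (i + 1)).1 y = (q i).1 (u (q i) ++ v (q i) ++ y) + V (v (q i) ++ y) :=
    fun _ _ => rfl
  have hx : ∀ i, x (i + 1) = x i ++ (u (q i) ++ v (q i)) := fun _ => rfl
  have key : ∀ i j, j < i → ∃ r, x i = x j ++ u (q j) ++ r ∧ ∀ y, V (r ++ y) ≤ (q i).1 y := by
    intro i
    induction i with
    | zero => exact fun j hj => absurd hj j.not_lt_zero
    | succ i ih =>
      intro j hj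
      rcases (Nat.lt_succ_iff.1 hj).eq_or_lt with rfl | hj
      · exact ⟨v (q j), by rw [hx, List.append_assoc], fun y => by
          rw [hq]; exact le_add_of_nonneg_left ((q j).2.1 _)⟩
      · obtain ⟨r, h1, h2⟩ := ih j hj
        refine ⟨r ++ (u (q i) ++ v (q i)), by rw [hx, h1, List.append_assoc], fun y => ?_⟩
        rw [hq, List.append_assoc]
        exact (h2 _).trans (le_add_of_nonneg_right (h0 _))
  have len : ∀ i, i ≤ (x i).length := fun i => by
    induction i with
    | zero => exact Nat.zero_le _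
    | succ i ih =>
      have := hu (q i)
      rw [hx, List.length_append, List.length_append]
      omega
  refine ⟨x, fun j => x j ++ u (q j), fun j => (len j).trans (by simp), fun j i h => ?_⟩
  obtain ⟨r, h1, h2⟩ := key i j h
  have h3 := h2 []
  rw [List.append_nil] at h3
  exact ⟨r, h1, h3.trans_lt (q i).2.2.2⟩

theorem exists_lim {B : Type} [NormedAddCommGroup B] [NormedSpace ℂ B] (l : ℕ → B →L[ℂ] ℂ)
    (h : ∀ i, ‖l i‖ ≤ 1) : ∃ m : B →L[ℂ] ℂ, ‖m‖ ≤ 1 ∧
      ∀ g, Tendsto (fun i => l i g) (hyperfilter ℕ) (𝓝 (m g)) := by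
  obtain ⟨m, hm, h2⟩ := (WeakDual.isCompact_closedBall (𝕜 := ℂ) (0 : StrongDual ℂ B) 1).ultrafilter_le_nhds
    ((hyperfilter ℕ).map fun i => StrongDual.toWeakDual (l i)) 
      (le_principal_iff.2 (mem_map.2 (Eventually.of_forall fun i => by simpa using h i)))
  exact ⟨WeakDual.toStrongDual m, by simpa using hm, fun g =>
    ((WeakDual.eval_continuous g).tendsto m).comp h2⟩

/-- The integral of a bounded function against a distribution on `Z`. -/
noncomputable def II (μ : PMF Z) : Li TT ℂ →L[ℂ] ℂ :=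
  (lift : Li TT ℂ →L[ℂ] L1 TT →L[ℂ] ℂ).flip (toL (μ.map .inr))

theorem II_apply (μ : PMF Z) (g : Li TT ℂ) : II μ g = lift g (toL (μ.map .inr)) := rfl

theorem norm_II (μ : PMF Z) : ‖II μ‖ ≤ 1 :=
  ContinuousLinearMap.opNorm_le_bound _ zero_le_one fun g => by
    rw [mul_comm]
    exact (lift g).le_of_opNorm_le_of_le (norm_lift_le g) (norm_toL _)

theorem II_coin (F : Bool → PMF Z) (g : Li TT ℂ) :
    II (coin.bind F) g = 2⁻¹ * (II (F true) g + II (F false) g) := by
  have : ∀ F : Bool → PMF TT, toL (coin.bind F) = (2⁻¹ : ℂ) • (toL (F true) + toL (F false)) := by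
    intro F
    ext t
    simp [toL_apply, coin, ENNReal.toReal_add, PMF.apply_ne_top, ENNReal.mul_ne_top]
  rw [II_apply, PMF.map_bind, this, map_smul, map_add]
  rfl

/-- The translate by a zoom map. -/
noncomputable def zm (g : Li TT ℂ) (w : List Bool) : Li TT ℂ := opp kT g (dl (.inl w))

theorem II_zm (μ : PMF Z) (g : Li TT ℂ) (w : List Bool) :
    II μ (zm g w) = II (μ.bind (act w)) g := by
  rw [II_apply, II_apply, zm, lift_opp, ← toL_pure, ContinuousLinearMap.comp_apply, mulL_toL, conv,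
    PMF.pure_bind, PMF.bind_map, PMF.map_bind]
  rfl

theorem rs_inr (N n : ℕ) : rs N (.inr n) = PMF.pure (.inr (n + (N - n))) := by
  have : ∀ k n, up k (.inr n) = PMF.pure (.inr (n + k)) := fun k => by
    induction k with
    | zero => exact fun _ => rfl
    | succ k ih => intro n; simp only [up, ch, ih, PMF.bind_const]; congr 2; omega
  exact this _ _

/-- The limit of the integrals against the raised distributions. -/
noncomputable def lz (z : Z) : Li TT ℂ →L[ℂ] ℂ :=
  (exists_lim (fun N => II (rs N z)) fun _ => norm_II _).choose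

theorem norm_lz (z : Z) (g : Li TT ℂ) : ‖lz z g‖ ≤ ‖g‖ := by
  have := (lz z).le_of_opNorm_le (exists_lim (fun N => II (rs N z)) fun _ => norm_II _).choose_spec.1 g
  rwa [one_mul] at this

theorem tendsto_lz (z : Z) (g : Li TT ℂ) :
    Tendsto (fun N => II (rs N z) g) (hyperfilter ℕ) (𝓝 (lz z g)) :=
  (exists_lim (fun N => II (rs N z)) fun _ => norm_II _).choose_spec.2 g

theorem ev_gt (n : ℕ) : ∀ᶠ N in hyperfilter ℕ, n < N :=
  Nat.hyperfilter_le_atTop (eventually_gt_atTop n)

theorem lz_inr (n : ℕ) (g : Li TT ℂ) : lz (.inr n) g = lz (.inr 0) g :=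
  tendsto_nhds_unique_of_eventuallyEq (tendsto_lz _ g) (tendsto_lz _ g) <| (ev_gt n).mono
    fun N hN => by simp only [rs_inr]; congr 4; omega

theorem lz_harm (z : Z) (g : Li TT ℂ) :
    lz z g = 2⁻¹ * (lz (ch z true) g + lz (ch z false) g) :=
  tendsto_nhds_unique_of_eventuallyEq (tendsto_lz _ g)
    (((tendsto_lz _ g).add (tendsto_lz _ g)).const_mul _) <| (ev_gt (deg z)).mono fun N hN => by
      have : N - deg z = N - (deg z + 1) + 1 := by omega
      simp only [rs, deg_ch, this, up, II_coin]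

theorem lz_nil (z : Z) (g : Li TT ℂ) : lz z (zm g []) = lz z g :=
  tendsto_nhds_unique (tendsto_lz _ _) ((tendsto_lz _ g).congr fun N => by
    rw [II_zm, show act [] = PMF.pure from rfl, PMF.bind_pure])

theorem lz_cons (z : Z) (g : Li TT ℂ) (b : Bool) (w : List Bool) : lz z (zm g (b :: w)) =
    2⁻¹ * (lz (strip b (ch z true)) (zm g w) + lz (strip b (ch z false)) (zm g w)) :=
  tendsto_nhds_unique (tendsto_lz _ _)
    ((((tendsto_lz _ _).add (tendsto_lz _ _)).const_mul _).congr fun N => by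
      simp only [II_zm, ← act_rs]
      rw [act, PMF.bind_bind, II_coin])

theorem lz_opp (z : Z) (g : Li TT ℂ) : lz (.inr 0) (opp kT g (dl (.inr z))) = lz z g :=
  tendsto_nhds_unique (tendsto_lz _ _) ((tendsto_lz _ g).congr fun N => by
    rw [rs_inr, II_apply, II_apply, lift_opp, PMF.pure_map, toL_pure, ContinuousLinearMap.comp_apply,
      mulL_dl, zero_add, Nat.sub_zero]
    rfl)

theorem lz_zm (g : Li TT ℂ) (w : List Bool) : lz (.inr 0) (zm g w) = lz (.inr 0) g := by
  induction w with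
  | nil => exact lz_nil _ g
  | cons b w ih => rw [lz_cons]; simp only [ch, strip, Nat.add_sub_cancel, ih]; ring

theorem lz_cons_cons (g : Li TT ℂ) (b d : Bool) (w x : List Bool) :
    lz (.inl (d :: x)) (zm g (b :: w)) = if d = b then lz (.inl x) (zm g w) else lz (.inr 0) g := by
  rw [lz_cons]
  split_ifs with h
  · rw [lz_harm (.inl x)]
    simp [ch, strip, h]
  · simp only [ch, List.cons_append, strip, if_neg h, lz_inr, lz_zm]
    ring

theorem lz_append (g : Li TT ℂ) (w r : List Bool) : lz (.inl (w ++ r)) (zm g w) = lz (.inl r) g := by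
  induction w with
  | nil => exact lz_nil _ g
  | cons b w ih => rw [List.cons_append, lz_cons_cons, if_pos rfl, ih]

theorem lz_bound (g : Li TT ℂ) (w x : List Bool) :
    ‖lz (.inl x) (zm g w) - lz (.inr 0) g‖ ≤ 2⁻¹ ^ w.length * (2 ^ x.length * (‖g‖ + ‖g‖)) := by
  induction w generalizing x with
  | nil =>
    rw [lz_nil, List.length_nil, pow_zero, one_mul]
    exact ((norm_sub_le _ _).trans (add_le_add (norm_lz _ _) (norm_lz _ _))).trans
      (le_mul_of_one_le_left (by positivity) (one_le_pow₀ one_le_two))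
  | cons b w ih =>
    rcases x with _ | ⟨d, x⟩
    · have h : lz (.inl []) (zm g (b :: w)) - lz (.inr 0) g =
          2⁻¹ * (lz (.inl []) (zm g w) - lz (.inr 0) g) := by
        rw [lz_cons]
        cases b <;> simp [ch, strip, lz_zm] <;> ring
      rw [h, norm_mul, List.length_cons, pow_succ', mul_assoc]
      exact mul_le_mul (by simp) (ih _) (norm_nonneg _) (by simp)
    · rw [lz_cons_cons]
      split_ifs
      · refine (ih x).trans (le_of_eq ?_)
        simp only [List.length_cons]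
        ring
      · rw [sub_self, norm_zero]
        positivity

theorem lz_wap {f : Li TT ℂ} (hf : f ∈ WAP (opp kT)) (x₀ : List Bool) :
    lz (.inl x₀) f = lz (.inr 0) f := by
  by_contra hne
  let a : ℂ := starRingEnd ℂ (lz (.inl x₀) f - lz (.inr 0) f)
  let ψ : List Bool → ℝ := fun x => (a * (lz (.inl x) f - lz (.inr 0) f)).re
  have hb : BddAbove (Set.range ψ) := ⟨‖a‖ * (‖f‖ + ‖f‖), by
    rintro _ ⟨x, rfl⟩
    refine (Complex.re_le_norm _).trans ((norm_mul_le _ _).trans ?_)
    gcongr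
    exact (norm_sub_le _ _).trans (add_le_add (norm_lz _ _) (norm_lz _ _))⟩
  have hpos : 0 < ⨆ x, ψ x := by
    refine lt_of_lt_of_le ?_ (le_ciSup hb x₀)
    simp only [ψ, a, ← Complex.normSq_eq_conj_mul_self, Complex.ofReal_re]
    exact Complex.normSq_pos.2 (sub_ne_zero.2 hne)
  obtain ⟨x, w, hw, hx⟩ := threads (V := fun x => (⨆ x, ψ x) - ψ x)
    (fun x => sub_nonneg.2 (le_ciSup hb x)) (fun x => by
      have h : a * (lz (.inl (x ++ [true])) f - lz (.inr 0) f) +
          a * (lz (.inl (x ++ [false])) f - lz (.inr 0) f) =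
          (2 : ℝ) * (a * (lz (.inl x) f - lz (.inr 0) f)) := by
        rw [lz_harm (.inl x)]; simp only [ch]; push_cast; ring
      have h2 := congrArg Complex.re h
      rw [Complex.add_re, Complex.re_ofReal_mul] at h2
      simp only [ψ]
      linarith) (fun δ hδ => (exists_lt_of_lt_ciSup (sub_lt_self (⨆ x, ψ x) hδ)).imp fun v hv => by
        linarith) (half_pos hpos)
  obtain ⟨K, hK, hK0⟩ := hf
  obtain ⟨ε, hε, hball⟩ := Metric.nhds_basis_closedBall.mem_iff.1 hK0
  have hsm : ∀ w, opp kT f ((ε : ℂ) • dl (.inl w)) = (ε : ℂ) • zm f w := fun w =>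
    dualEquiv.injective (by
      change lift _ = dualEquiv _
      rw [map_smul, lift_opp, map_smul, ContinuousLinearMap.comp_smul]
      exact congrArg _ (lift_opp _ _ _).symm)
  obtain ⟨g, -, hg⟩ := hK.ultrafilter_le_nhds ((hyperfilter ℕ).map fun j =>
    toWeakSpace ℂ _ ((ε : ℂ) • zm f (w j))) (by
      simp only [Ultrafilter.coe_map, le_principal_iff, mem_map]
      refine Eventually.of_forall fun j => ?_
      beta_reduce
      rw [← hsm]
      refine hball (mem_closedBall_zero_iff.2 ?_)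
      change ‖(ε : ℂ) • dl (.inl (w j) : TT)‖ ≤ ε
      rw [norm_smul, norm_dl, mul_one, Complex.norm_of_nonneg hε.le])
  have hl : ∀ l : Li TT ℂ →L[ℂ] ℂ, Tendsto (fun j => (ε : ℂ) * l (zm f (w j))) (hyperfilter ℕ)
      (𝓝 (l ((toWeakSpace ℂ _).symm g))) := fun l =>
    (((WeakBilin.eval_continuous (topDualPairing ℂ (Li TT ℂ)).flip l).tendsto g).comp hg).congr
      fun j => l.map_smul _ _
  have h0 : ∀ y, lz (.inl y) ((toWeakSpace ℂ _).symm g) = ε * lz (.inr 0) f := fun y => by
    refine tendsto_nhds_unique (hl _) (Tendsto.const_mul _ (tendsto_iff_norm_sub_tendsto_zero.2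
      (squeeze_zero (fun _ => norm_nonneg _) (fun j => lz_bound f (w j) y) ?_)))
    rw [← zero_mul (2 ^ y.length * (‖f‖ + ‖f‖))]
    exact ((tendsto_pow_atTop_nhds_zero_of_lt_one (by simp) (by norm_num)).comp
      ((tendsto_atTop_mono hw tendsto_id).mono_left Nat.hyperfilter_le_atTop)).mul_const _
  obtain ⟨β, -, hβ⟩ := exists_lim (fun i => lz (.inl (x i))) fun i =>
    ContinuousLinearMap.opNorm_le_bound _ zero_le_one fun g => by rw [one_mul]; exact norm_lz _ g
  have h1 : β ((toWeakSpace ℂ _).symm g) = ε * lz (.inr 0) f :=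
    tendsto_nhds_unique (hβ _) (by simpa only [h0] using tendsto_const_nhds)
  have h2 : ∀ j, (⨆ x, ψ x) / 2 ≤ (a * (β (zm f (w j)) - lz (.inr 0) f)).re := fun j =>
    ge_of_tendsto ((Complex.continuous_re.tendsto _).comp (((hβ _).sub_const _).const_mul a)) <|
      (ev_gt j).mono fun i hi => by
        obtain ⟨r, h3, h4⟩ := hx j i hi
        simp only [Function.comp_apply, h3, lz_append]
        simp only [ψ] at h4 ⊢
        linarith
  have h3 := (Complex.continuous_re.tendsto _).comp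
    (((hl β).sub_const (ε * lz (.inr 0) f)).const_mul a)
  rw [h1, sub_self, mul_zero, Complex.zero_re] at h3
  refine (mul_pos hε (half_pos hpos)).not_ge (ge_of_tendsto' h3 fun j => ?_)
  rw [Function.comp_apply, ← mul_sub, mul_left_comm, Complex.re_ofReal_mul]
  exact mul_le_mul_of_nonneg_left (h2 j) hε.le

theorem hasTLIM : HasTLIM (opp kT) (WAP (opp kT)) (SS kT : Set (Alg kT)) := by
  have hm1 : lz (.inr 0) 1 = 1 := tendsto_nhds_unique (tendsto_lz _ _)
    (by simpa only [II_apply, lift_one_toL] using tendsto_const_nhds)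
  obtain ⟨V, m, hV, -, ⟨h1, -⟩, -⟩ := hasTLIM_WAP (S := ∅) (isFAlg kT) (lz (.inr 0)) (norm_lz _)
    hm1 (by simp)
  have hinv : ∀ f ∈ V, ∀ a, opp kT f a ∈ V := fun f hf a => by
    rw [← SetLike.mem_coe, hV] at hf ⊢
    have h : IsCompactOperator fun b : Alg kT => toWeakSpace ℂ _ (opp kT f b) := hf
    have h2 := h.comp_clm (ContinuousLinearMap.mul ℂ (Alg kT) a)
    have e : ∀ b, opp kT (opp kT f a) b = opp kT f (a * b) := fun b =>
      dualEquiv.injective (ContinuousLinearMap.ext fun c => by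
        change lift _ c = lift (opp kT f (mulL kT a b)) c
        simp only [lift_opp, ContinuousLinearMap.comp_apply, mulL_assoc])
    change IsCompactOperator fun b : Alg kT => toWeakSpace ℂ _ (opp kT (opp kT f a) b)
    simp only [e]
    exact h2
  refine ⟨V, lz (.inr 0) ∘L V.subtypeL, hV, le_antisymm ?_ ?_, ⟨h1, hm1⟩,
    fun a ha f => ⟨hinv _ f.2 a, ?_⟩⟩
  · exact ContinuousLinearMap.opNorm_le_bound _ zero_le_one fun f => by
      rw [one_mul]; exact norm_lz _ _
  · have h2 := (lz (.inr 0) ∘L V.subtypeL).le_opNorm ⟨1, h1⟩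
    have h3 : (lz (.inr 0) ∘L V.subtypeL) ⟨1, h1⟩ = 1 := hm1
    have h4 : ‖(⟨1, h1⟩ : V)‖ = 1 := norm_one (α := Li TT ℂ)
    rwa [h3, h4, norm_one, mul_one] at h2
  · have hf : f.1 ∈ WAP (opp kT) := hV ▸ f.2
    have h2 : lz (.inr 0) ∘L (dualEquiv (T := TT)).symm.toLinearIsometry.toContinuousLinearMap ∘L
        ContinuousLinearMap.compL ℂ _ _ _ (lift f.1) ∘L mulL kT =
        lz (.inr 0) f.1 • lift (1 : Li TT ℂ) := ext1 fun t => by
      change lz (.inr 0) (opp kT f.1 (dl t)) = lz (.inr 0) f.1 * lift (1 : Li TT ℂ) (dl t)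
      rw [← toL_pure t, lift_one_toL, toL_pure, mul_one]
      rcases t with w | x | n
      exacts [lz_zm _ w, (lz_opp _ _).trans (lz_wap hf x), (lz_opp _ _).trans (lz_inr n _)]
    have h3 := congrArg (fun F : L1 TT →L[ℂ] ℂ => F a) h2
    have h4 : lift (1 : Li TT ℂ) (show L1 TT from a) = 1 := ha.2
    change lz (.inr 0) (opp kT f.1 a) = lz (.inr 0) f.1 * lift (1 : Li TT ℂ) (show L1 TT from a) at h3
    rw [h4, mul_one] at h3
    exact h3

end Pool.Agent.P.MP_2f0599_an.TQ
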