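import Pool.Agent.P.MP_2f0599_an.TQ.Dlp
import Pool.Agent.P.MP_2f0599_an.TQ.Wap
import Pool.Agent.P.MP_2f0599_an.TQ.Rep

/-! The tree algebra fails the invariant subspace property with trivial quotient action. -/

set_option autoImplicit false

open MeasureTheory

namespace Pool.Agent.P.MP_2f0599_an.TQ

theorem not_unifFW_tree (𝕜 : Type) [RCLike 𝕜] : ¬ UnifFW 𝕜 (SS kT) 1 :=
  not_unifFW dist_mul_right dist_mul_left (Ψ := Psi) (fun _ => Phi_le_one _) Psi_lip
    (fun U _ hN => Psi_dlp U hN) (Psi_val (.inr 0)) (Psi_val (.inl [])) (by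
      simp only [Phi, dz, dn, en_zero, lintegral_const, measure_univ, mul_one]
      exact en_one.ne')

end Pool.Agent.P.MP_2f0599_an.TQ
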