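import Mathlib
import Pool.Agent.P.MP_2f0599_an.Defs

/-! The algebra of summable families attached to an associative probability kernel. -/

set_option autoImplicit false

open scoped ENNReal ComplexOrder

namespace Pool.Agent.P.MP_2f0599_an.TQ

variable {T : Type}

/-- The space of summable families. -/
abbrev L1 (T : Type) : Type := lp (fun _ : T => ℂ) 1

/-- The space of bounded families. -/
abbrev Li (T B : Type) [NormedAddCommGroup B] : Type := lp (fun _ : T => B) ∞

open Classical in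
/-- Point masses. -/
noncomputable def dl (i : T) : L1 T := lp.single 1 i 1

theorem norm_dl (i : T) : ‖dl i‖ = 1 := by
  simp [dl, lp.norm_single]

section lift

variable {B : Type} [NormedAddCommGroup B] [NormedSpace ℂ B]

/-- A bounded family as an element of the sup-normed space. -/
def mkI (f : T → B) (C : ℝ) (h : ∀ i, ‖f i‖ ≤ C) : Li T B :=
  ⟨f, memℓp_infty ⟨C, by rintro _ ⟨i, rfl⟩; exact h i⟩⟩

omit [NormedSpace ℂ B] in
@[simp] theorem mkI_apply (f : T → B) (C : ℝ) (h : ∀ i, ‖f i‖ ≤ C) (i : T) :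
    mkI f C h i = f i := rfl

theorem ext1 {F G : L1 T →L[ℂ] B} (h : ∀ i, F (dl i) = G (dl i)) : F = G := by
  classical
  apply lp.ext_continuousLinearMap (by simp)
  intro i
  ext
  convert h i <;> simp [dl]

theorem hasSum_clm (F : L1 T →L[ℂ] B) (a : L1 T) : HasSum (fun i => a i • F (dl i)) (F a) := by
  classical
  have h := (lp.hasSum_single (by simp) a).map F F.continuous
  convert h using 1
  funext i
  have : lp.single 1 i (a i) = a i • dl i := by
    rw [dl, ← lp.single_smul, smul_eq_mul, mul_one]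
  simp only [Function.comp_apply]
  rw [this, map_smul]

variable [CompleteSpace B]

/-- Integration of a bounded family against a summable one. -/
noncomputable def lift : Li T B →L[ℂ] L1 T →L[ℂ] B :=
  lp.dualPairing ∞ 1 (fun _ : T => (ContinuousLinearMap.lsmul ℂ ℂ : ℂ →L[ℂ] B →L[ℂ] B).flip)
    (K := 1) (fun _ => by
      rw [ContinuousLinearMap.opNorm_flip]
      exact ContinuousLinearMap.opNorm_lsmul_le)

theorem lift_apply (f : Li T B) (a : L1 T) : lift f a = ∑' i, a i • f i := rfl

theorem norm_lift_le (f : Li T B) : ‖lift f‖ ≤ ‖f‖ := by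
  have : ‖(lift : Li T B →L[ℂ] L1 T →L[ℂ] B)‖ ≤ ((1 : NNReal) : ℝ) := lp.norm_dualPairing _ _
  simpa using (lift : Li T B →L[ℂ] L1 T →L[ℂ] B).le_of_opNorm_le this f

@[simp] theorem lift_dl (f : Li T B) (i : T) : lift f (dl i) = f i := by
  classical
  rw [lift_apply, tsum_eq_single i]
  · simp [dl]
  · intro j hj
    simp [dl, lp.single_apply, Pi.single_eq_of_ne hj]

theorem norm_lift_mkI (f : T → B) (h : ∀ i, ‖f i‖ ≤ 1) : ‖lift (mkI f 1 h)‖ ≤ 1 :=
  (norm_lift_le _).trans (lp.norm_le_of_forall_le zero_le_one h)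

end lift

/-- The duality between bounded and summable families. -/
noncomputable def dualEquiv : Li T ℂ ≃ₗᵢ[ℂ] (L1 T →L[ℂ] ℂ) :=
  LinearIsometryEquiv.ofSurjective
    { toLinearMap := (lift : Li T ℂ →L[ℂ] L1 T →L[ℂ] ℂ)
      norm_map' := fun f => by
        apply le_antisymm (norm_lift_le f)
        apply lp.norm_le_of_forall_le (norm_nonneg _)
        intro i
        have := (lift f).le_opNorm (dl i)
        rwa [lift_dl, norm_dl, mul_one] at this }
    (fun g => ⟨mkI (fun i => g (dl i)) ‖g‖ (fun i => by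
        have := g.le_opNorm (dl i)
        rwa [norm_dl, mul_one] at this), ext1 fun i => lift_dl _ i⟩)

theorem hasSum_pmf (μ : PMF T) : HasSum (fun t => (μ t).toReal) 1 := by
  have h := ENNReal.hasSum_toReal (f := μ) (by rw [μ.tsum_coe]; simp)
  rwa [← ENNReal.tsum_toReal_eq μ.apply_ne_top, μ.tsum_coe, ENNReal.toReal_one] at h

/-- A probability distribution as a summable family. -/
noncomputable def toL (μ : PMF T) : L1 T :=
  ⟨fun t => ((μ t).toReal : ℂ), memℓp_gen (by simpa using (hasSum_pmf μ).summable)⟩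

theorem toL_apply (μ : PMF T) (t : T) : toL μ t = ((μ t).toReal : ℂ) := rfl

theorem norm_toL (μ : PMF T) : ‖toL μ‖ ≤ 1 :=
  lp.norm_le_of_tsum_le (by simp) zero_le_one (by simp [toL_apply, (hasSum_pmf μ).tsum_eq])

theorem toL_inj {μ ν : PMF T} (h : toL μ = toL ν) : μ = ν := by
  ext t
  have : toL μ t = toL ν t := by rw [h]
  rw [toL_apply, toL_apply, Complex.ofReal_inj] at this
  exact (ENNReal.toReal_eq_toReal_iff' (μ.apply_ne_top t) (ν.apply_ne_top t)).1 this

theorem toL_pure (t : T) : toL (PMF.pure t) = dl t := by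
  classical
  ext u
  by_cases h : u = t <;> simp [toL_apply, dl, lp.single_apply, h]

theorem hasSum_bind {U : Type} (μ : PMF U) (F : U → PMF T) (u : T) :
    HasSum (fun t => (μ t).toReal * (F t u).toReal) (μ.bind F u).toReal := by
  have h1 : ∑' t, μ t * F t u ≠ ∞ := (μ.bind F).apply_ne_top u
  have h2 := ENNReal.hasSum_toReal h1
  rw [← ENNReal.tsum_toReal_eq fun t => ENNReal.mul_ne_top (μ.apply_ne_top t)
    ((F t).apply_ne_top u)] at h2
  simpa using h2

theorem clm_toL (G : L1 T →L[ℂ] L1 T) (F : T → PMF T) (h : ∀ t, G (dl t) = toL (F t))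
    (μ : PMF T) : G (toL μ) = toL (μ.bind F) := by
  ext u
  have h1 := (hasSum_clm G (toL μ)).map (lp.evalCLM ℂ (fun _ : T => ℂ) 1 u)
    (ContinuousLinearMap.continuous _)
  have h2 := Complex.hasSum_ofReal.2 (hasSum_bind μ F u)
  refine h1.unique ?_
  rw [toL_apply]
  convert h2 using 1
  funext t
  simp [h, toL_apply, lp.evalCLM]

theorem lift_one_toL (μ : PMF T) : lift (1 : Li T ℂ) (toL μ) = 1 := by
  have h2 := Complex.hasSum_ofReal.2 (hasSum_pmf μ)
  rw [lift_apply]
  simpa [toL_apply] using h2.tsum_eq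

/-- An associative probability kernel. -/
structure Ker (T : Type) where
  p : T → T → PMF T
  assoc : ∀ s t u, (p s t).bind (fun v => p v u) = (p t u).bind (p s)

variable (κ : Ker T)

/-- Left multiplication by a point mass. -/
noncomputable def mulP (s : T) : L1 T →L[ℂ] L1 T :=
  lift (mkI (fun t => toL (κ.p s t)) 1 fun _ => norm_toL _)

/-- The convolution. -/
noncomputable def mulL : L1 T →L[ℂ] L1 T →L[ℂ] L1 T :=
  lift (mkI (mulP κ) 1 fun _ => norm_lift_mkI _ _)

/-- The convolution of probability distributions. -/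
noncomputable def conv (μ ν : PMF T) : PMF T := μ.bind fun s => ν.bind (κ.p s)

@[simp] theorem mulL_dl (s t : T) : mulL κ (dl s) (dl t) = toL (κ.p s t) := by
  rw [mulL, lift_dl]
  exact lift_dl _ t

theorem mulL_toL (μ ν : PMF T) : mulL κ (toL μ) (toL ν) = toL (conv κ μ ν) :=
  clm_toL ((mulL κ).flip (toL ν)) _ (fun s => clm_toL (mulL κ (dl s)) _ (mulL_dl κ s) ν) μ

theorem ext2 {B : Type} [NormedAddCommGroup B] [NormedSpace ℂ B] {F G : L1 T →L[ℂ] L1 T →L[ℂ] B}
    (h : ∀ s t, F (dl s) (dl t) = G (dl s) (dl t)) : F = G := ext1 fun s => ext1 (h s)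

theorem mulL_assoc (a b c : L1 T) : mulL κ (mulL κ a b) c = mulL κ a (mulL κ b c) := by
  have h1 : ∀ s t : T, mulL κ (mulL κ (dl s) (dl t)) = (mulL κ (dl s)) ∘L (mulL κ (dl t)) := by
    intro s t
    apply ext1
    intro u
    rw [ContinuousLinearMap.comp_apply, mulL_dl, mulL_dl, ← toL_pure, ← toL_pure, mulL_toL, mulL_toL]
    simp only [conv, PMF.pure_bind, κ.assoc]
  have h2 : ∀ s : T, ((mulL κ).flip c) ∘L (mulL κ (dl s)) =
      (mulL κ (dl s)) ∘L ((mulL κ).flip c) := fun s => ext1 fun t =>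
    congrArg (fun F : L1 T →L[ℂ] L1 T => F c) (h1 s t)
  have h3 : ((mulL κ).flip c) ∘L ((mulL κ).flip b) = (mulL κ).flip (mulL κ b c) := ext1 fun s =>
    congrArg (fun F : L1 T →L[ℂ] L1 T => F b) (h2 s)
  exact congrArg (fun F : L1 T →L[ℂ] L1 T => F a) h3

theorem one_mulL (a b : L1 T) :
    lift (1 : Li T ℂ) (mulL κ a b) = lift (1 : Li T ℂ) a * lift (1 : Li T ℂ) b := by
  have h1 : ∀ s : T, (lift (1 : Li T ℂ)) ∘L (mulL κ (dl s)) = lift (1 : Li T ℂ) := fun s =>
    ext1 fun t => by simp [lift_one_toL]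
  have h2 : (lift (1 : Li T ℂ)) ∘L ((mulL κ).flip b) = lift (1 : Li T ℂ) b • lift (1 : Li T ℂ) :=
    ext1 fun s => by
      have := congrArg (fun F : L1 T →L[ℂ] ℂ => F b) (h1 s)
      simpa using this
  have := congrArg (fun F : L1 T →L[ℂ] ℂ => F a) h2
  simpa [mul_comm] using this

/-- The algebra of the kernel. -/
def Alg (_ : Ker T) : Type := L1 T

noncomputable instance : NonUnitalNormedRing (Alg κ) :=
  { (inferInstanceAs (NormedAddCommGroup (L1 T)) : NormedAddCommGroup (Alg κ)) with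
    mul := fun a b => mulL κ a b
    left_distrib := fun (a b c : L1 T) => (mulL κ a).map_add b c
    right_distrib := fun a b c => by
      change mulL κ ((show L1 T from a) + (show L1 T from b)) c = mulL κ a c + mulL κ b c
      rw [map_add]; rfl
    zero_mul := fun a => by
      change mulL κ 0 a = 0
      rw [map_zero]; rfl
    mul_zero := fun a => map_zero (mulL κ a)
    mul_assoc := mulL_assoc κ
    norm_mul_le := fun a b => by
      have := (mulL κ).le_of_opNorm₂_le_of_le (norm_lift_mkI _ _) (le_refl ‖(show L1 T from a)‖)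
        (le_refl ‖(show L1 T from b)‖)
      rw [one_mul] at this
      exact this }

noncomputable instance : NormedSpace ℂ (Alg κ) := inferInstanceAs (NormedSpace ℂ (L1 T))

instance : CompleteSpace (Alg κ) := inferInstanceAs (CompleteSpace (L1 T))

instance : IsScalarTower ℂ (Alg κ) (Alg κ) :=
  ⟨fun c a b => by
    change mulL κ (c • (show L1 T from a)) b = c • mulL κ a b
    rw [map_smul]; rfl⟩

instance : SMulCommClass ℂ (Alg κ) (Alg κ) :=
  ⟨fun c a b => (map_smul (mulL κ a) c b).symm⟩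

/-- The duality for the algebra of the kernel. -/
noncomputable def ev (f : Li T ℂ) (a : Alg κ) : ℂ := lift f (show L1 T from a)

/-- The module action on the dual. -/
noncomputable def opp (f : Li T ℂ) (a : Alg κ) : Li T ℂ := dualEquiv.symm (lift f ∘L mulL κ a)

theorem lift_opp (f : Li T ℂ) (a : Alg κ) : lift (opp κ f a) = lift f ∘L mulL κ a :=
  dualEquiv.apply_symm_apply _

theorem isFAlg [Nonempty T] : IsFAlg (ev κ) (opp κ) :=
  ⟨⟨(dualEquiv : Li T ℂ ≃ₗᵢ[ℂ] (L1 T →L[ℂ] ℂ)), fun _ _ => rfl⟩, one_mulL κ, fun f a b => by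
    change lift (opp κ f a) (show L1 T from b) = lift f (mulL κ a b)
    rw [lift_opp]; rfl⟩

theorem toL_mem [Nonempty T] (μ : PMF T) : (show Alg κ from toL μ) ∈ P1 (ev κ) :=
  ⟨fun x => (hasSum_clm (lift (star x * x)) (toL μ)).nonneg fun t => by
    rw [lift_dl, toL_apply]
    exact mul_nonneg (by exact_mod_cast ENNReal.toReal_nonneg) (star_mul_self_nonneg (x t)),
    lift_one_toL μ⟩

theorem exists_pmf' {a : L1 T} (ha : ∀ x : Li T ℂ, 0 ≤ lift (star x * x) a)
    (h2 : lift (1 : Li T ℂ) a = 1) : ∃ μ : PMF T, toL μ = a := by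
  classical
  have h0 : ∀ i, 0 ≤ a i := fun i => by
    have h := ha (lp.single ∞ i 1)
    rw [lift_apply, tsum_eq_single i] at h
    · simpa using h
    · intro k hk
      simp [lp.single_apply, Pi.single_eq_of_ne hk]
  have h1 : HasSum (fun i => (a i).re) 1 := by
    have h := hasSum_clm (lift (1 : Li T ℂ)) a
    rw [h2] at h
    simpa using Complex.hasSum_re h
  have h3 : ∀ i, 0 ≤ (a i).re := fun i => (Complex.le_def.1 (h0 i)).1
  refine ⟨⟨fun i => ENNReal.ofReal (a i).re, ?_⟩, ?_⟩
  · have := ENNReal.ofReal_tsum_of_nonneg h3 h1.summable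
    rw [h1.tsum_eq, ENNReal.ofReal_one] at this
    have h4 := (ENNReal.summable (f := fun i => ENNReal.ofReal (a i).re)).hasSum
    rwa [← this] at h4
  · ext i
    change (((ENNReal.ofReal (a i).re).toReal : ℝ) : ℂ) = _
    rw [ENNReal.toReal_ofReal (h3 i)]
    exact Complex.ext rfl (by simpa using (Complex.le_def.1 (h0 i)).2)

theorem exists_pmf [Nonempty T] {a : Alg κ} (ha : a ∈ P1 (ev κ)) : ∃ μ : PMF T, toL μ = a :=
  exists_pmf' ha.1 ha.2

/-- The semigroup of normal states. -/
def SS [Nonempty T] : Subsemigroup (Alg κ) where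
  carrier := P1 (ev κ)
  mul_mem' := by
    intro a b ha hb
    obtain ⟨μ, rfl⟩ := exists_pmf κ ha
    obtain ⟨ν, rfl⟩ := exists_pmf κ hb
    have := toL_mem κ (conv κ μ ν)
    rw [← mulL_toL] at this
    exact this

variable {κ} [Nonempty T]

/-- The distribution of a state. -/
noncomputable def pm (s : SS κ) : PMF T := (exists_pmf κ s.2).choose

theorem toL_pm (s : SS κ) : toL (pm s) = s.1 := (exists_pmf κ s.2).choose_spec

theorem pm_mul (s t : SS κ) : pm (s * t) = conv κ (pm s) (pm t) :=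
  toL_inj (by rw [← mulL_toL, toL_pm, toL_pm, toL_pm]; rfl)

/-- The state of a distribution. -/
noncomputable def st (κ : Ker T) (μ : PMF T) : SS κ := ⟨_, toL_mem κ μ⟩

@[simp] theorem pm_st (μ : PMF T) : pm (st κ μ) = μ := toL_inj (toL_pm _)

theorem norm_state (s : SS κ) : ‖s.1‖ ≤ 1 := by
  rw [← toL_pm]; exact norm_toL _

theorem dist_mul_right (s t r : SS κ) : dist (s * r) (t * r) ≤ dist s t := by
  rw [Subtype.dist_eq, Subtype.dist_eq, dist_eq_norm, dist_eq_norm]
  change ‖s.1 * r.1 - t.1 * r.1‖ ≤ _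
  rw [← sub_mul]
  exact (norm_mul_le _ _).trans (mul_le_of_le_one_right (norm_nonneg _) (norm_state r))

theorem dist_mul_left (s t r : SS κ) : dist (r * s) (r * t) ≤ dist s t := by
  rw [Subtype.dist_eq, Subtype.dist_eq, dist_eq_norm, dist_eq_norm]
  change ‖r.1 * s.1 - r.1 * t.1‖ ≤ _
  rw [← mul_sub]
  exact (norm_mul_le _ _).trans (mul_le_of_le_one_left (norm_nonneg _) (norm_state r))

theorem tsum_sub_le (s t : SS κ) : ∑' u, (pm s u - pm t u) ≤ ENNReal.ofReal (dist s t) := by
  rw [Subtype.dist_eq, dist_eq_norm, ← toL_pm, ← toL_pm]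
  have h := lp.hasSum_norm (p := 1) (by simp) (toL (pm s) - toL (pm t))
  simp only [ENNReal.toReal_one, Real.rpow_one] at h
  change _ ≤ ENNReal.ofReal ‖toL (pm s) - toL (pm t)‖
  rw [← h.tsum_eq, ENNReal.ofReal_tsum_of_nonneg (fun _ => norm_nonneg _) h.summable]
  refine ENNReal.tsum_le_tsum fun u => ?_
  rw [lp.coeFn_sub, Pi.sub_apply, toL_apply, toL_apply, ← Complex.ofReal_sub, Complex.norm_real,
    tsub_le_iff_right, ← ENNReal.ofReal_toReal ((pm s).apply_ne_top u),
    ← ENNReal.ofReal_toReal ((pm t).apply_ne_top u), ← ENNReal.ofReal_add (norm_nonneg _)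
      ENNReal.toReal_nonneg, ENNReal.toReal_ofReal ENNReal.toReal_nonneg,
    ENNReal.toReal_ofReal ENNReal.toReal_nonneg]
  have h5 := Real.le_norm_self ((pm s u).toReal - (pm t u).toReal)
  exact ENNReal.ofReal_le_ofReal (by linarith)

end Pool.Agent.P.MP_2f0599_an.TQ
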